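import Pool.Agent.Work.MP_8b6acb_ti_helper32.Bridge

/-!
# (S0') in first exit form: bounds for `side_total` and `side_total_S`
-/

namespace R5

open Finset T7

variable {α : Type} [DecidableEq α]

theorem arun_rev (σ : Finset α → Lab) (D : Finset α) (h0 : σ ∅ ≠ Lab.B) (π : List α) :
    π.Nodup → (∀ x ∈ π, x ∈ D) → σ π.toFinset = Lab.B →
    arun (dual σ D) (D \ π.toFinset) π.reverse + 1 + kN σ π = π.length := by
  induction π using List.reverseRecOn with
  | nil =>
    intro _ _ hB
    exact absurd hB h0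
  | append_singleton π y ih =>
    intro hnd hD hB
    have hnd0 := hnd
    rw [List.nodup_append] at hnd
    have hy : y ∉ π := fun h => hnd.2.2 y h y (by simp) rfl
    have hyD : y ∈ D := hD y (by simp)
    have hπD : ∀ z ∈ π, z ∈ D := fun z hz => hD z (by simp [hz])
    have hm1 : (π ++ [y]) ∈ seqs (π ++ [y]).toFinset.card (π ++ [y]).toFinset :=
      mem_seqs_card.2 ⟨hnd0, rfl⟩
    have hm2 : π ∈ seqs π.toFinset.card π.toFinset := mem_seqs_card.2 ⟨hnd.1, rfl⟩
    have hc1 : (π ++ [y]).toFinset.card = π.length + 1 := by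
      rw [List.toFinset_card_of_nodup hnd0]; simp
    have hc2 : π.toFinset.card = π.length := List.toFinset_card_of_nodup hnd.1
    rw [List.reverse_append, List.reverse_singleton, List.singleton_append, arun_cons,
      insert_sdiff_snoc hyD hy, dual_sdiff σ (fun z hz => hπD z (List.mem_toFinset.1 hz)),
      List.length_append, List.length_singleton]
    have k1 := kN_lt h0 hB hm1
    rw [hc1] at k1
    have hl : allB σ (π ++ [y]) π.length ↔ σ π.toFinset = Lab.B := by
      rw [allB_pred (by simp)]
      have e1 : pre (π ++ [y]) π.length = π.toFinset := by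
        rw [pre_append_le le_rfl, pre_len]
      have e2 : allB σ (π ++ [y]) (π.length + 1) := by
        have := (allB_length (τ := σ) (π := π ++ [y])).2 hB
        rwa [List.length_append, List.length_singleton] at this
      rw [e1]
      exact ⟨fun h => h.1, fun h => ⟨h, e2⟩⟩
    have hi := allB_iff h0 hB hm1
    by_cases h : σ π.toFinset = Lab.B
    · rw [if_pos (flip_eq_A.2 h)]
      have h1 := ih hnd.1 hπD h
      have h2 := allB_iff h0 h hm2
      have k2 := kN_lt h0 h hm2
      rw [hc2] at k2
      have k3 : kN σ (π ++ [y]) < π.length := (hi _).1 (hl.2 h)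
      have h3 : ∀ j, j ≤ π.length → (allB σ (π ++ [y]) j ↔ allB σ π j) := by
        intro j hj
        unfold allB
        rw [List.length_append, List.length_singleton]
        constructor
        · intro h4 i hi'
          rw [mem_Icc] at hi'
          have := h4 i (by rw [mem_Icc]; omega)
          rwa [pre_append_le hi'.2] at this
        · intro h4 i hi'
          rw [mem_Icc] at hi'
          by_cases hiL : i ≤ π.length
          · rw [pre_append_le hiL]
            exact h4 i (by rw [mem_Icc]; omega)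
          · have : i = π.length + 1 := by omega
            rw [this, pre_of_ge (by simp)]
            exact hB
      have h4 : kN σ (π ++ [y]) = kN σ π := by
        rcases lt_trichotomy (kN σ (π ++ [y])) (kN σ π) with h5 | h5 | h5
        · have := (h3 _ k2.le).1 ((hi _).2 h5)
          exact absurd ((h2 _).1 this) (lt_irrefl _)
        · exact h5
        · have := (h3 _ k3.le).2 ((h2 _).2 h5)
          exact absurd ((hi _).1 this) (lt_irrefl _)
      omega
    · rw [if_neg (fun h' => h (flip_eq_A.1 h'))]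
      have k3 : ¬ kN σ (π ++ [y]) < π.length := fun h' => h (hl.1 ((hi _).2 h'))
      omega

/-- The bound of (S0') for the T-state `W` of `σ`. -/
noncomputable def lwS (σ : Finset α → Lab) (D : Finset α) (mk : Finset α → Finset α)
    (W : Finset α) (π : List α) : ℝ :=
  ∑ k ∈ range W.card,
    (iE σ π k * gm mk D (D \ pre π k) + iX σ π k * gm mk D (D \ pre π (k + 1))) +
  (∑ k ∈ range W.card, iE σ π k) * (Real.log (W.card : ℝ) - Real.log (D.card : ℝ) +
    lamn W.card * ((W.card : ℝ) - kN σ π - ((W.filter (fun x => σ {x} = Lab.B)).card : ℝ)))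

/-- (S0') in first exit form. -/
theorem S0_T (σ : Finset α → Lab) (D : Finset α) (ρ : Finset α → α → ℝ)
    (mk : Finset α → Finset α) (h0 : σ ∅ = Lab.A) (W : Finset α) (hW : W ⊆ D)
    (hB : σ W = Lab.B) (hρ : ∀ x ∈ W, 0 < ρ (D \ W) x ∧ ρ (D \ W) x ≤ 1) :
    Av W (lwS σ D mk W) ≤
      Av W (fun π => TS σ D ρ mk W π -
        Real.log (D.card : ℝ) * ∑ k ∈ range W.card, iE σ π k) := by
  have hDD : D \ (D \ W) = W := Finset.sdiff_sdiff_eq_self hW
  have hA : dual σ D (D \ W) = Lab.A := by rw [dual_sdiff σ hW, flip_eq_A]; exact hB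
  have hD : dual σ D D = Lab.B := by
    rw [dual_flip, sdiff_self, bot_eq_empty, flip_eq_B]; exact h0
  have h0' : σ ∅ ≠ Lab.B := by rw [h0]; decide
  have e1 := Ssl_ge (dual σ D) D (D \ W) sdiff_subset hA hD (ρ (D \ W))
    (by rw [hDD]; exact fun x hx => (hρ x hx).1) (by rw [hDD]; exact fun x hx => (hρ x hx).2) mk
  have ea : (D \ (D \ W)).filter (fun x => dual σ D (D.erase x) = Lab.A) =
      W.filter (fun x => σ {x} = Lab.B) := by
    rw [hDD]
    refine filter_congr fun x hx => ?_
    rw [dual_flip, flip_eq_A]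
    have : D \ D.erase x = {x} := by
      ext z
      simp only [mem_sdiff, mem_erase, mem_singleton]
      constructor
      · rintro ⟨h1, h2⟩
        by_contra h3
        exact h2 ⟨h3, h1⟩
      · rintro rfl
        exact ⟨hW hx, fun h => h.1 rfl⟩
    rw [this]
  rw [ea] at e1
  unfold Ssl SX at e1
  simp only [hDD] at e1
  rw [← Eo_reverse W (gS _ _ _ _), ← Eo_reverse W (leI _ _), ← Eo_reverse W (psum _ _),
    ← Eo_reverse W (rq _ _)] at e1
  have t1 : Eo W (fun π => gS (dual σ D) D mk (D \ W) π.reverse) = Eo W (fun π =>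
      ∑ k ∈ range W.card,
      (iE σ π k * gm mk D (D \ pre π k) + iX σ π k * gm mk D (D \ pre π (k + 1)))) :=
    Eo_congr fun π hπ => gS_rev hW hπ mk
  have t2 : Eo W (fun π => leI (dual σ D) (D \ W) π.reverse) = Eo W (fun π =>
      ∑ k ∈ range W.card, iE σ π k) := Eo_congr fun π hπ => leI_rev hW hπ
  have t3 : Eo W (fun π => psum (phiS (dual σ D) D (ρ (D \ W)) (W.card : ℝ) (D \ W) mk) (D \ W)
      π.reverse) = Eo W (TS σ D ρ mk W) := Eo_congr fun π hπ => by
    have := TS_rev (σ := σ) hW hπ ρ mk
    rwa [hDD] at this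
  have t4 : Eo W (fun π => rq (dual σ D) (D \ W) π.reverse) = Eo W (fun π =>
      (∑ k ∈ range W.card, iE σ π k) * (Real.log (W.card : ℝ) +
        lamn W.card * ((W.card : ℝ) - 1 - kN σ π))) := Eo_congr fun π hπ => by
    unfold rq
    have hm := mem_seqs_card.1 hπ
    have h1 := arun_rev σ D h0' π hm.1 (fun x hx => hW (by
      rw [← hm.2]; exact List.mem_toFinset.2 hx)) (by rw [hm.2]; exact hB)
    rw [hm.2, length_of_mem hπ] at h1
    have h2 : (arun (dual σ D) (D \ W) π.reverse : ℝ) = (W.card : ℝ) - 1 - kN σ π := by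
      have : (arun (dual σ D) (D \ W) π.reverse : ℝ) + 1 + (kN σ π : ℝ) = (W.card : ℝ) := by
        exact_mod_cast h1
      linarith
    rw [leI_rev hW hπ, List.length_reverse, length_of_mem hπ, h2]
  rw [t1, t2, t3, t4] at e1
  have r1 : Av W (lwS σ D mk W) = Eo W (fun π => ∑ k ∈ range W.card,
      (iE σ π k * gm mk D (D \ pre π k) + iX σ π k * gm mk D (D \ pre π (k + 1)))) +
      Eo W (fun π => (∑ k ∈ range W.card, iE σ π k) * (Real.log (W.card : ℝ) +
        lamn W.card * ((W.card : ℝ) - 1 - kN σ π))) +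
      (lamn W.card * (1 - ((W.filter (fun x => σ {x} = Lab.B)).card : ℝ)) -
        Real.log (D.card : ℝ)) * Eo W (fun π => ∑ k ∈ range W.card, iE σ π k) := by
    rw [← Eo_mul, ← Eo_add, ← Eo_add]
    refine Eo_congr fun π _ => ?_
    unfold lwS
    ring
  have r2 : Av W (fun π => TS σ D ρ mk W π -
      Real.log (D.card : ℝ) * ∑ k ∈ range W.card, iE σ π k) = Eo W (TS σ D ρ mk W) -
      Real.log (D.card : ℝ) * Eo W (fun π => ∑ k ∈ range W.card, iE σ π k) := by
    show Eo W _ = _
    rw [Eo_sub, Eo_mul]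
  rw [r1, r2]
  linarith

end R5
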