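import Pool.Agent.Work.MP_8b6acb_ti_helper32.S0c
import Pool.Agent.Work.MP_8b6acb_ti.Side

/-!
# (S0') in first exit form (bridge to helper55's path layer)
-/

namespace R5

open Finset

variable {α : Type} [DecidableEq α]

theorem insert_sdiff_snoc {D : Finset α} {π : List α} {y : α} (hy : y ∈ D) (hn : y ∉ π) :
    insert y (D \ (π ++ [y]).toFinset) = D \ π.toFinset := by
  ext z
  simp only [mem_insert, mem_sdiff, List.mem_toFinset, List.mem_append, List.mem_singleton]
  constructor
  · rintro (rfl | ⟨h1, h2⟩)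
    · exact ⟨hy, hn⟩
    · exact ⟨h1, fun h => h2 (Or.inl h)⟩
  · rintro ⟨h1, h2⟩
    by_cases hz : z = y
    · exact Or.inl hz
    · exact Or.inr ⟨h1, fun h => h.elim h2 hz⟩

theorem dual_sdiff (σ : Finset α → Lab) {D S : Finset α} (hS : S ⊆ D) :
    dual σ D (D \ S) = (σ S).flip := by
  rw [dual_flip, Finset.sdiff_sdiff_eq_self hS]

theorem pre_len (π : List α) : pre π π.length = π.toFinset := pre_of_ge le_rfl

theorem gd_rev (σ : Finset α → Lab) (D : Finset α) (π : List α) : π.Nodup → (∀ x ∈ π, x ∈ D) →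
    gd (dual σ D) (D \ π.toFinset) π.reverse = iA σ π π.length := by
  induction π using List.reverseRecOn with
  | nil =>
    intro _ _
    show (if dual σ D (D \ ([] : List α).toFinset) = Lab.B then (1 : ℝ) else 0) = _
    rw [List.toFinset_nil, dual_sdiff σ (empty_subset D)]
    unfold iA
    refine if_congr ?_ rfl rfl
    rw [flip_eq_B, List.length_nil, allA_zero]
  | append_singleton π y ih =>
    intro hnd hD
    rw [List.nodup_append] at hnd
    have hy : y ∉ π := fun h => hnd.2.2 y h y (by simp) rfl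
    have hyD : y ∈ D := hD y (by simp)
    have hS : (π ++ [y]).toFinset ⊆ D := fun z hz => hD z (List.mem_toFinset.1 hz)
    rw [List.reverse_append, List.reverse_singleton, List.singleton_append, gd_cons,
      insert_sdiff_snoc hyD hy, ih hnd.1 (fun z hz => hD z (by simp [hz])), dual_sdiff σ hS]
    unfold iA
    rw [List.length_append, List.length_singleton]
    have e1 : allA σ (π ++ [y]) (π.length + 1) ↔ allA σ π π.length ∧
        σ (π ++ [y]).toFinset = Lab.A := by
      rw [allA_succ, allA_append le_rfl]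
      have : pre (π ++ [y]) (π.length + 1) = (π ++ [y]).toFinset := by
        rw [← pre_len]; simp
      rw [this]
    by_cases h1 : σ (π ++ [y]).toFinset = Lab.A
    · rw [if_pos (flip_eq_B.2 h1)]
      exact if_congr (by rw [e1]; tauto) rfl rfl
    · rw [if_neg (fun h => h1 (flip_eq_B.1 h)), if_neg (fun h => h1 (e1.1 h).2)]

theorem csum_rev (c : Finset α → ℝ) (D : Finset α) (π : List α) : π.Nodup → (∀ x ∈ π, x ∈ D) →
    csum c (D \ π.toFinset) π.reverse = ∑ i ∈ Icc 1 π.length, c (D \ pre π i) := by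
  induction π using List.reverseRecOn with
  | nil => intro _ _; rfl
  | append_singleton π y ih =>
    intro hnd hD
    rw [List.nodup_append] at hnd
    have hy : y ∉ π := fun h => hnd.2.2 y h y (by simp) rfl
    have hyD : y ∈ D := hD y (by simp)
    rw [List.reverse_append, List.reverse_singleton, List.singleton_append]
    show c _ + csum c (insert y (D \ (π ++ [y]).toFinset)) π.reverse = _
    rw [insert_sdiff_snoc hyD hy, ih hnd.1 (fun z hz => hD z (by simp [hz])),
      List.length_append, List.length_singleton, sum_Icc_succ_top (by omega)]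
    have e1 : pre (π ++ [y]) (π.length + 1) = (π ++ [y]).toFinset := by
      rw [← pre_len]; simp
    rw [e1, add_comm]
    congr 1
    refine sum_congr rfl fun i hi => ?_
    rw [pre_append_le (mem_Icc.1 hi).2]

/-- The step at the top of a reversed word. -/
noncomputable def Th (Φ : Finset α → α → List α → ℝ) (D : Finset α) (π : List α) : ℝ :=
  match π.reverse with
  | [] => 0
  | y :: r => Φ (D \ π.toFinset) y r

theorem Th_snoc (Φ : Finset α → α → List α → ℝ) (D : Finset α) (π : List α) (y : α) :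
    Th Φ D (π ++ [y]) = Φ (D \ (π ++ [y]).toFinset) y π.reverse := by
  unfold Th
  rw [List.reverse_append, List.reverse_singleton, List.singleton_append]

theorem psum_rev (Φ : Finset α → α → List α → ℝ) (D : Finset α) (π : List α) : π.Nodup →
    (∀ x ∈ π, x ∈ D) →
    psum Φ (D \ π.toFinset) π.reverse = ∑ k ∈ range π.length, Th Φ D (π.take (k + 1)) := by
  induction π using List.reverseRecOn with
  | nil => intro _ _; rfl
  | append_singleton π y ih =>
    intro hnd hD
    rw [List.nodup_append] at hnd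
    have hy : y ∉ π := fun h => hnd.2.2 y h y (by simp) rfl
    have hyD : y ∈ D := hD y (by simp)
    rw [List.reverse_append, List.reverse_singleton, List.singleton_append]
    show Φ _ y π.reverse + psum Φ (insert y (D \ (π ++ [y]).toFinset)) π.reverse = _
    rw [insert_sdiff_snoc hyD hy, ih hnd.1 (fun z hz => hD z (by simp [hz])),
      List.length_append, List.length_singleton, sum_range_succ, add_comm]
    congr 1
    · refine sum_congr rfl fun k hk => ?_
      rw [mem_range] at hk
      rw [List.take_append_of_le_length (by omega)]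
    · rw [List.take_of_length_le (by simp), Th_snoc]

theorem pre_succ_eq {π : List α} {k : ℕ} (h : k < π.length) :
    pre π (k + 1) = insert π[k] (pre π k) := by
  unfold pre
  rw [← List.take_append_getElem h, List.toFinset_append]
  ext y
  simp only [mem_insert, mem_union, List.mem_toFinset, List.mem_singleton]
  tauto

theorem getElem_notMem_take {π : List α} (hnd : π.Nodup) {k : ℕ} (h : k < π.length) :
    π[k] ∉ π.take k := by
  have h1 : (π.take k ++ [π[k]]).Nodup := by
    rw [List.take_append_getElem h]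
    exact hnd.sublist (List.take_sublist _ _)
  rw [List.nodup_append] at h1
  exact fun h2 => h1.2.2 _ h2 _ (by simp) rfl

theorem nx_eq {π : List α} (hnd : π.Nodup) {k : ℕ} (h : k < π.length) : nx π k = {π[k]} := by
  unfold nx
  rw [pre_succ_eq h]
  have h2 : π[k] ∉ pre π k := by
    unfold pre
    rw [List.mem_toFinset]
    exact getElem_notMem_take hnd h
  ext y
  simp only [mem_sdiff, mem_insert, mem_singleton]
  constructor
  · rintro ⟨h3 | h3, h4⟩
    · exact h3
    · exact absurd h3 h4
  · rintro rfl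
    exact ⟨Or.inl rfl, h2⟩

/-- Evaluation of a step. -/
theorem Th_take (Φ : Finset α → α → List α → ℝ) (D : Finset α) {π : List α} {k : ℕ}
    (h : k < π.length) :
    Th Φ D (π.take (k + 1)) = Φ (D \ pre π (k + 1)) π[k] (π.take k).reverse := by
  rw [← List.take_append_getElem h, Th_snoc, List.take_append_getElem h]
  rfl

section

variable {σ : Finset α → Lab} {D W : Finset α} {π : List α}

theorem path_facts (hW : W ⊆ D) (hπ : π ∈ seqs W.card W) {k : ℕ} (hk : k < π.length) :
    pre π (k + 1) ⊆ D ∧ pre π k ⊆ D ∧ insert π[k] (D \ pre π (k + 1)) = D \ pre π k ∧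
    gd (dual σ D) (D \ pre π k) (π.take k).reverse = iA σ π k := by
  have hnd := (mem_seqs_card.1 hπ).1
  have h1 : ∀ j, pre π j ⊆ D := fun j => (pre_subset_of_mem hπ j).trans hW
  refine ⟨h1 _, h1 _, ?_, ?_⟩
  · have h2 : π[k] ∉ pre π k := by
      unfold pre
      rw [List.mem_toFinset]
      exact getElem_notMem_take hnd hk
    have h3 : π[k] ∈ D := h1 (k + 1) (by rw [pre_succ_eq hk]; exact mem_insert_self _ _)
    rw [pre_succ_eq hk]
    ext z
    simp only [mem_insert, mem_sdiff]
    constructor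
    · rintro (rfl | ⟨h4, h5⟩)
      · exact ⟨h3, h2⟩
      · exact ⟨h4, fun h => h5 (Or.inr h)⟩
    · rintro ⟨h4, h5⟩
      by_cases hz : z = π[k]
      · exact Or.inl hz
      · exact Or.inr ⟨h4, fun h => h.elim hz h5⟩
  · have h2 := gd_rev σ D (π.take k) (hnd.sublist (List.take_sublist _ _)) (fun x hx =>
      h1 k (List.mem_toFinset.2 hx))
    have h3 : (π.take k).length = k := by rw [List.length_take]; omega
    rw [h3] at h2
    have h4 : iA σ (π.take k) k = iA σ π k := iA_congr (allA_take le_rfl)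
    rw [← h4, ← h2]
    rfl

theorem isE_rev (hW : W ⊆ D) (hπ : π ∈ seqs W.card W) {k : ℕ} (hk : k < π.length) :
    isE (dual σ D) (D \ pre π (k + 1)) π[k] ↔ σ (pre π (k + 1)) = Lab.B ∧ σ (pre π k) = Lab.A := by
  obtain ⟨h1, h2, h3, -⟩ := path_facts (σ := σ) hW hπ hk
  unfold isE
  rw [h3, dual_sdiff σ h1, dual_sdiff σ h2, flip_eq_A, flip_eq_B]

/-- The bridge for general steps. -/
theorem bridge (hW : W ⊆ D) (hπ : π ∈ seqs W.card W) (Φ : Finset α → α → List α → ℝ) :
    psum Φ (D \ W) π.reverse =
      ∑ k ∈ range W.card, Th Φ D (π.take (k + 1)) := by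
  have h1 := mem_seqs_card.1 hπ
  have h2 := psum_rev Φ D π h1.1 (fun x hx => hW (by rw [← h1.2]; exact List.mem_toFinset.2 hx))
  rw [h1.2, length_of_mem hπ] at h2
  exact h2

theorem leI_rev (hW : W ⊆ D) (hπ : π ∈ seqs W.card W) :
    leI (dual σ D) (D \ W) π.reverse = ∑ k ∈ range W.card, iE σ π k := by
  unfold leI
  rw [bridge hW hπ]
  refine sum_congr rfl fun k hk => ?_
  rw [mem_range, ← length_of_mem hπ] at hk
  rw [Th_take _ D hk]
  obtain ⟨h1, h2, h3, h4⟩ := path_facts (σ := σ) hW hπ hk
  rw [h3, h4]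
  have h5 := isE_rev (σ := σ) hW hπ hk
  by_cases hE : exE σ π k
  · rw [iE_pos hE, if_pos (h5.2 ⟨hE.2, hE.1 k (by simp)⟩), iA_pos hE.1]
  · rw [iE_neg hE]
    by_cases h6 : isE (dual σ D) (D \ pre π (k + 1)) π[k]
    · rw [if_pos h6]
      exact iA_neg fun h => hE ⟨h, (h5.1 h6).1⟩
    · rw [if_neg h6]

theorem gS_rev (hW : W ⊆ D) (hπ : π ∈ seqs W.card W) (mk : Finset α → Finset α) :
    gS (dual σ D) D mk (D \ W) π.reverse = ∑ k ∈ range W.card,
      (iE σ π k * gm mk D (D \ pre π k) + iX σ π k * gm mk D (D \ pre π (k + 1))) := by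
  unfold gS
  rw [bridge hW hπ]
  refine sum_congr rfl fun k hk => ?_
  rw [mem_range, ← length_of_mem hπ] at hk
  rw [Th_take _ D hk]
  obtain ⟨h1, h2, h3, h4⟩ := path_facts (σ := σ) hW hπ hk
  rw [h3, h4]
  have h5 := isE_rev (σ := σ) hW hπ hk
  congr 1
  · by_cases hE : exE σ π k
    · rw [iE_pos hE, if_pos (h5.2 ⟨hE.2, hE.1 k (by simp)⟩), iA_pos hE.1]
    · rw [iE_neg hE, zero_mul]
      by_cases h6 : isE (dual σ D) (D \ pre π (k + 1)) π[k]
      · rw [if_pos h6, iA_neg fun h => hE ⟨h, (h5.1 h6).1⟩, zero_mul]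
      · rw [if_neg h6]
  · have h7 : dual σ D (D \ pre π (k + 1)) = Lab.X ↔ σ (pre π (k + 1)) = Lab.X := by
      rw [dual_sdiff σ h1, flip_eq_X]
    by_cases hE : exX σ π k
    · rw [iX_pos hE, if_pos (h7.2 hE.2), iA_pos hE.1]
    · have : iX σ π k = 0 := if_neg hE
      rw [this, zero_mul]
      by_cases h6 : dual σ D (D \ pre π (k + 1)) = Lab.X
      · rw [if_pos h6, iA_neg fun h => hE ⟨h, h7.1 h6⟩, zero_mul]
      · rw [if_neg h6]

/-- The functional of a T-state is the path functional of the dual state. -/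
theorem TS_rev (hW : W ⊆ D) (hπ : π ∈ seqs W.card W) (ρ : Finset α → α → ℝ)
    (mk : Finset α → Finset α) :
    psum (phiS (dual σ D) D (ρ (D \ W)) ((D \ (D \ W)).card : ℝ) (D \ W) mk) (D \ W) π.reverse =
      TS σ D ρ mk W π := by
  unfold TS
  rw [bridge hW hπ]
  refine sum_congr rfl fun k hk => ?_
  rw [mem_range, ← length_of_mem hπ] at hk
  rw [Th_take _ D hk, Finset.sdiff_sdiff_eq_self hW]
  obtain ⟨h1, h2, h3, h4⟩ := path_facts (σ := σ) hW hπ hk
  have hnd := (mem_seqs_card.1 hπ).1
  have hkl : (π.take k).length = k := by rw [List.length_take]; omega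
  have hmem : ∀ j, ∀ x ∈ π.take j, x ∈ D := fun j x hx =>
    (pre_subset_of_mem hπ j).trans hW (List.mem_toFinset.2 hx)
  have hn : (D.card : ℝ) - ((D \ W).card : ℝ) = (W.card : ℝ) := by
    rw [card_sdiff_cast hW]; ring
  unfold phiS
  rw [h3, h4, nx_eq hnd hk, sum_singleton]
  have h5 := isE_rev (σ := σ) hW hπ hk
  congr 1
  · have e1 : csum (sc (ρ (D \ W)) (W.card : ℝ) (D \ W) (D \ pre π k) (mk (D \ pre π k)))
        (D \ pre π k) (π.take k).reverse =
        ∑ i ∈ Icc 1 k, SS ρ mk D (D \ W) (D \ pre π k) (D \ pre π i) := by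
      have := csum_rev (sc (ρ (D \ W)) (W.card : ℝ) (D \ W) (D \ pre π k) (mk (D \ pre π k))) D
        (π.take k) (hnd.sublist (List.take_sublist _ _)) (hmem k)
      rw [hkl] at this
      rw [show D \ pre π k = D \ (π.take k).toFinset from rfl]
      rw [show D \ pre π k = D \ (π.take k).toFinset from rfl] at this
      rw [this]
      refine sum_congr rfl fun i hi => ?_
      rw [pre_take (mem_Icc.1 hi).2]
      unfold SS
      rw [hn]
    by_cases hE : exE σ π k
    · rw [if_pos hE, if_pos (h5.2 ⟨hE.2, hE.1 k (by simp)⟩), iA_pos hE.1, e1]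
      ring
    · rw [if_neg hE]
      by_cases h6 : isE (dual σ D) (D \ pre π (k + 1)) π[k]
      · rw [if_pos h6, iA_neg fun h => hE ⟨h, (h5.1 h6).1⟩, zero_mul]
      · rw [if_neg h6]
  · have h7 : dual σ D (D \ pre π (k + 1)) = Lab.X ↔ σ (pre π (k + 1)) = Lab.X := by
      rw [dual_sdiff σ h1, flip_eq_X]
    have hkl' : (π.take (k + 1)).length = k + 1 := by rw [List.length_take]; omega
    have e1 : csum (sc (ρ (D \ W)) (W.card : ℝ) (D \ W) (D \ pre π (k + 1))
        (mk (D \ pre π (k + 1)))) (D \ pre π (k + 1)) (π[k] :: (π.take k).reverse) =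
        ∑ i ∈ Icc 1 (k + 1), SS ρ mk D (D \ W) (D \ pre π (k + 1)) (D \ pre π i) := by
      have := csum_rev (sc (ρ (D \ W)) (W.card : ℝ) (D \ W) (D \ pre π (k + 1))
        (mk (D \ pre π (k + 1)))) D (π.take (k + 1)) (hnd.sublist (List.take_sublist _ _))
        (hmem (k + 1))
      rw [hkl'] at this
      have e2 : (π.take (k + 1)).reverse = π[k] :: (π.take k).reverse := by
        rw [← List.take_append_getElem hk, List.reverse_append]
        rfl
      rw [e2] at this
      refine Eq.trans ?_ (this.trans ?_)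
      · rfl
      · refine sum_congr rfl fun i hi => ?_
        rw [pre_take (mem_Icc.1 hi).2]
        unfold SS
        rw [hn]
    by_cases hE : exX σ π k
    · rw [if_pos hE, if_pos (h7.2 hE.2), iA_pos hE.1, e1, one_mul]
    · rw [if_neg hE]
      by_cases h6 : dual σ D (D \ pre π (k + 1)) = Lab.X
      · rw [if_pos h6, iA_neg fun h => hE ⟨h, h7.1 h6⟩, zero_mul]
      · rw [if_neg h6]

end

end R5
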