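import Pool.Agent.Work.MP_8b6acb_fq.Basic

/-!
# Averages over orders (path layer)

`Eo G F` = average of `F π` over all orders `π` of the finite set `G`.
-/

namespace R5

open Finset

variable {α : Type} [DecidableEq α]

/-- The average over all orders of `G`. -/
noncomputable def Eo (G : Finset α) (F : List α → ℝ) : ℝ :=
  (∑ π ∈ seqs G.card G, F π) / (G.card.factorial : ℝ)

theorem fac_pos (n : ℕ) : (0 : ℝ) < (n.factorial : ℝ) := by exact_mod_cast n.factorial_pos

theorem Eo_empty (F : List α → ℝ) : Eo ∅ F = F [] := by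
  simp [Eo, seqs_zero]

theorem Eo_rec {G : Finset α} (hG : G.Nonempty) (F : List α → ℝ) :
    Eo G F = (∑ x ∈ G, Eo (G.erase x) (fun π => F (x :: π))) / (G.card : ℝ) := by
  obtain ⟨n, hn⟩ : ∃ n, G.card = n + 1 := Nat.exists_eq_succ_of_ne_zero (card_pos.2 hG).ne'
  unfold Eo
  rw [hn, sum_seqs_succ, Nat.factorial_succ]
  have h1 : ∀ x ∈ G, (∑ π ∈ seqs (G.erase x).card (G.erase x), F (x :: π)) /
      ((G.erase x).card.factorial : ℝ) = (∑ π ∈ seqs n (G.erase x), F (x :: π)) /
        (n.factorial : ℝ) := by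
    intro x hx
    have : (G.erase x).card = n := by rw [card_erase_of_mem hx, hn]; rfl
    rw [this]
  rw [sum_congr rfl h1, ← sum_div]
  have := fac_pos n
  push_cast
  field_simp

theorem Eo_congr {G : Finset α} {F F' : List α → ℝ}
    (h : ∀ π ∈ seqs G.card G, F π = F' π) : Eo G F = Eo G F' := by
  unfold Eo
  rw [sum_congr rfl h]

theorem Eo_mono {G : Finset α} {F F' : List α → ℝ}
    (h : ∀ π ∈ seqs G.card G, F π ≤ F' π) : Eo G F ≤ Eo G F' := by
  unfold Eo
  exact div_le_div_of_nonneg_right (sum_le_sum h) (fac_pos _).le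

theorem Eo_add (G : Finset α) (F F' : List α → ℝ) :
    Eo G (fun π => F π + F' π) = Eo G F + Eo G F' := by
  unfold Eo
  rw [sum_add_distrib, add_div]

theorem Eo_sub (G : Finset α) (F F' : List α → ℝ) :
    Eo G (fun π => F π - F' π) = Eo G F - Eo G F' := by
  unfold Eo
  rw [sum_sub_distrib, sub_div]

theorem Eo_mul (G : Finset α) (c : ℝ) (F : List α → ℝ) :
    Eo G (fun π => c * F π) = c * Eo G F := by
  unfold Eo
  rw [← mul_sum, mul_div_assoc]

theorem Eo_mul_right (G : Finset α) (F : List α → ℝ) (c : ℝ) :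
    Eo G (fun π => F π * c) = Eo G F * c := by
  rw [mul_comm, ← Eo_mul]
  exact Eo_congr fun π _ => mul_comm _ _

theorem Eo_div (G : Finset α) (F : List α → ℝ) (c : ℝ) :
    Eo G (fun π => F π / c) = Eo G F / c := by
  simp only [div_eq_mul_inv]
  exact Eo_mul_right G F c⁻¹

theorem Eo_neg (G : Finset α) (F : List α → ℝ) :
    Eo G (fun π => -F π) = -Eo G F := by
  unfold Eo
  rw [sum_neg_distrib, neg_div]

theorem Eo_const (G : Finset α) (c : ℝ) : Eo G (fun _ => c) = c := by
  unfold Eo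
  rw [sum_const, card_seqs_card, nsmul_eq_mul]
  have := fac_pos G.card
  field_simp

theorem Eo_sum {ι : Type} (G : Finset α) (K : Finset ι) (F : ι → List α → ℝ) :
    Eo G (fun π => ∑ i ∈ K, F i π) = ∑ i ∈ K, Eo G (F i) := by
  unfold Eo
  rw [sum_comm, sum_div]

theorem Eo_nonneg {G : Finset α} {F : List α → ℝ} (h : ∀ π ∈ seqs G.card G, 0 ≤ F π) :
    0 ≤ Eo G F := by
  have := Eo_mono (F := fun _ => (0 : ℝ)) h
  rwa [Eo_const] at this

theorem Eo_zero (G : Finset α) : Eo G (fun _ => (0 : ℝ)) = 0 := Eo_const G 0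

/-- Reversing the order. -/
theorem Eo_reverse (G : Finset α) (F : List α → ℝ) :
    Eo G (fun π => F π.reverse) = Eo G F := by
  unfold Eo
  congr 1
  refine sum_nbij' List.reverse List.reverse ?_ ?_ ?_ ?_ ?_
  · intro π hπ
    obtain ⟨h1, h2, h3⟩ := mem_seqs.1 hπ
    exact mem_seqs.2 ⟨List.nodup_reverse.2 h1, by rw [List.length_reverse, h2],
      fun x hx => h3 x (List.mem_reverse.1 hx)⟩
  · intro π hπ
    obtain ⟨h1, h2, h3⟩ := mem_seqs.1 hπ
    exact mem_seqs.2 ⟨List.nodup_reverse.2 h1, by rw [List.length_reverse, h2],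
      fun x hx => h3 x (List.mem_reverse.1 hx)⟩
  · intro π _; exact List.reverse_reverse π
  · intro π _; exact List.reverse_reverse π
  · intro π _; rfl

/-- Inserting one element at a uniform position. -/
theorem Eo_insert (n : ℕ) : ∀ (G : Finset α) (F : List α → ℝ) (x : α), x ∈ G → G.card = n + 1 →
    Eo G F = (∑ i ∈ range (n + 1), Eo (G.erase x) (fun w => F (w.insertIdx i x))) /
      ((n : ℝ) + 1) := by
  induction n with
  | zero =>
    intro G F x hx hG
    have h1 : G.erase x = ∅ := by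
      rw [← card_eq_zero, card_erase_of_mem hx, hG]
    have h2 : G = {x} := by
      rw [← insert_erase hx, h1]
      rfl
    rw [Eo_rec ⟨x, hx⟩, h1, hG, h2]
    simp [Eo_empty]
  | succ n ih =>
    intro G F x hx hG
    have hGx : (G.erase x).card = n + 1 := by rw [card_erase_of_mem hx, hG]; rfl
    have hGxn : (G.erase x).Nonempty := card_pos.1 (by omega)
    rw [Eo_rec ⟨x, hx⟩, ← insert_erase hx, sum_insert (notMem_erase x G), insert_erase hx]
    have h1 : ∀ y ∈ G.erase x, Eo (G.erase y) (fun π => F (y :: π)) =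
        (∑ i ∈ range (n + 1), Eo ((G.erase x).erase y)
          (fun w => F (y :: w.insertIdx i x))) / ((n : ℝ) + 1) := by
      intro y hy
      obtain ⟨hyx, hyG⟩ := mem_erase.1 hy
      have h2 : x ∈ G.erase y := mem_erase.2 ⟨fun h => hyx h.symm, hx⟩
      have h3 : (G.erase y).card = n + 1 := by rw [card_erase_of_mem hyG, hG]; rfl
      rw [ih (G.erase y) (fun π => F (y :: π)) x h2 h3, erase_right_comm]
    rw [sum_congr rfl h1, ← sum_div, sum_comm]
    have h4 : ∀ i ∈ range (n + 1), ∑ y ∈ G.erase x, Eo ((G.erase x).erase y)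
        (fun w => F (y :: w.insertIdx i x)) =
        ((n : ℝ) + 1) * Eo (G.erase x) (fun w => F (w.insertIdx (i + 1) x)) := by
      intro i _
      rw [Eo_rec hGxn, hGx]
      simp only [List.insertIdx_succ_cons]
      push_cast
      field_simp
    rw [sum_congr rfl h4, ← mul_sum, sum_range_succ' _ (n + 1), hG]
    simp only [List.insertIdx_zero]
    push_cast
    have : ((n : ℝ) + 1) ≠ 0 := by positivity
    field_simp
    ring

/-- Splitting an order at the level `i`. -/
theorem Eo_append (i : ℕ) : ∀ (G : Finset α) (F : List α → ℝ), i ≤ G.card →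
    Eo G F = (∑ X ∈ powersetCard i G, Eo X (fun π₁ => Eo (G \ X) (fun π₂ => F (π₁ ++ π₂)))) /
      (G.card.choose i : ℝ) := by
  induction i with
  | zero =>
    intro G F _
    rw [powersetCard_zero, sum_singleton, Eo_empty]
    simp
  | succ i ih =>
    intro G F hi
    have hG : G.Nonempty := card_pos.1 (by omega)
    obtain ⟨n, hn⟩ : ∃ n, G.card = n + 1 := Nat.exists_eq_succ_of_ne_zero (card_pos.2 hG).ne'
    rw [Eo_rec hG, hn]
    have h1 : ∀ x ∈ G, Eo (G.erase x) (fun π => F (x :: π)) =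
        (∑ X ∈ powersetCard i (G.erase x), Eo X (fun π₁ => Eo (G.erase x \ X)
          (fun π₂ => F (x :: (π₁ ++ π₂))))) / (n.choose i : ℝ) := by
      intro x hx
      have h2 : (G.erase x).card = n := by rw [card_erase_of_mem hx, hn]; rfl
      rw [ih (G.erase x) (fun π => F (x :: π)) (by omega), h2]
    rw [sum_congr rfl h1, ← sum_div]
    have h3 : ∀ X ∈ powersetCard (i + 1) G, Eo X (fun π₁ => Eo (G \ X) (fun π₂ => F (π₁ ++ π₂))) =
        (∑ x ∈ X, Eo (X.erase x) (fun π₁ => Eo (G \ X) (fun π₂ => F (x :: (π₁ ++ π₂))))) /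
          ((i : ℝ) + 1) := by
      intro X hX
      obtain ⟨hXG, hXc⟩ := mem_powersetCard.1 hX
      rw [Eo_rec (card_pos.1 (by omega)), hXc]
      push_cast
      rfl
    rw [sum_congr rfl h3, ← sum_div]
    have h4 : ∑ x ∈ G, ∑ X ∈ powersetCard i (G.erase x), Eo X (fun π₁ => Eo (G.erase x \ X)
          (fun π₂ => F (x :: (π₁ ++ π₂)))) =
        ∑ X ∈ powersetCard (i + 1) G, ∑ x ∈ X, Eo (X.erase x) (fun π₁ => Eo (G \ X)
          (fun π₂ => F (x :: (π₁ ++ π₂)))) := by
      rw [sum_sigma', sum_sigma']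
      refine sum_nbij' (fun p => ⟨insert p.1 p.2, p.1⟩) (fun p => ⟨p.2, p.1.erase p.2⟩)
        ?_ ?_ ?_ ?_ ?_
      · rintro ⟨x, X⟩ hp
        rw [mem_sigma, mem_powersetCard] at hp
        obtain ⟨hx, hX, hXc⟩ := hp
        have hxX : x ∉ X := fun h => (mem_erase.1 (hX h)).1 rfl
        rw [mem_sigma, mem_powersetCard]
        refine ⟨⟨?_, by rw [card_insert_of_notMem hxX, hXc]⟩, mem_insert_self _ _⟩
        exact insert_subset hx (hX.trans (erase_subset _ _))
      · rintro ⟨X, x⟩ hp
        rw [mem_sigma, mem_powersetCard] at hp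
        obtain ⟨⟨hX, hXc⟩, hx⟩ := hp
        rw [mem_sigma, mem_powersetCard]
        exact ⟨hX hx, erase_subset_erase _ hX, by rw [card_erase_of_mem hx, hXc]; rfl⟩
      · rintro ⟨x, X⟩ hp
        rw [mem_sigma, mem_powersetCard] at hp
        obtain ⟨hx, hX, hXc⟩ := hp
        have hxX : x ∉ X := fun h => (mem_erase.1 (hX h)).1 rfl
        simp only [erase_insert hxX]
      · rintro ⟨X, x⟩ hp
        rw [mem_sigma, mem_powersetCard] at hp
        simp only [insert_erase hp.2]
      · rintro ⟨x, X⟩ hp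
        rw [mem_sigma, mem_powersetCard] at hp
        obtain ⟨hx, hX, hXc⟩ := hp
        have hxX : x ∉ X := fun h => (mem_erase.1 (hX h)).1 rfl
        have e1 : G.erase x \ X = G \ insert x X := by
          ext y; simp only [mem_sdiff, mem_insert, mem_erase]; tauto
        simp only [erase_insert hxX, e1]
    rw [h4]
    have h5 : ((n + 1 : ℕ) : ℝ) * (n.choose i : ℝ) = ((n + 1).choose (i + 1) : ℝ) * ((i + 1 : ℕ) : ℝ) := by
      exact_mod_cast Nat.add_one_mul_choose_eq n i
    have hp1 : (0 : ℝ) < (n.choose i : ℝ) := by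
      exact_mod_cast Nat.choose_pos (by omega)
    have hp2 : (0 : ℝ) < ((n + 1).choose (i + 1) : ℝ) := by
      exact_mod_cast Nat.choose_pos (by omega)
    have hp3 : (0 : ℝ) < ((n + 1 : ℕ) : ℝ) := by positivity
    rw [div_div, div_div]
    congr 1
    push_cast at h5 ⊢
    linarith

end R5
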