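import Pool.Agent.Work.MP_8b6acb_ti_helper32.Eo
import Pool.Agent.Work.MP_8b6acb_fq.ORDV
import Pool.Agent.Work.MP_8b6acb_fq.ORD

/-!
# The S side of the value as an average over orders (path layer)
-/

namespace R5

open Finset

variable {α : Type} [DecidableEq α]

/-- Sum along a path: `Φ U x π` = value of the step from `U` to `insert x U`, rest `π`. -/
def psum (Φ : Finset α → α → List α → ℝ) : Finset α → List α → ℝ
  | _, [] => 0
  | U, x :: π => Φ U x π + psum Φ (insert x U) π

theorem psum_add (Φ Ψ : Finset α → α → List α → ℝ) (U : Finset α) (π : List α) :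
    psum (fun U x π => Φ U x π + Ψ U x π) U π = psum Φ U π + psum Ψ U π := by
  induction π generalizing U with
  | nil => simp [psum]
  | cons x π ih =>
    show _ + psum _ (insert x U) π = _
    rw [ih]
    show _ = (_ + psum _ _ π) + (_ + psum _ _ π)
    ring

theorem psum_mul (c : ℝ) (Φ : Finset α → α → List α → ℝ) (U : Finset α) (π : List α) :
    psum (fun U x π => c * Φ U x π) U π = c * psum Φ U π := by
  induction π generalizing U with
  | nil => simp [psum]
  | cons x π ih =>
    show _ + psum _ (insert x U) π = _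
    rw [ih]
    show _ = c * (_ + psum _ _ π)
    ring

/-- Summing `x` and `V ⊇ X + x`. -/
theorem sum_step (D X : Finset α) (f : Finset α → α → ℝ) :
    ∑ x ∈ D \ X, ∑ V ∈ D.powerset.filter (fun V => insert x X ⊆ V), f V x =
      ∑ V ∈ D.powerset.filter (fun V => X ⊆ V), ∑ x ∈ V \ X, f V x := by
  rw [sum_sigma', sum_sigma']
  refine sum_nbij' (fun p => ⟨p.2, p.1⟩) (fun p => ⟨p.2, p.1⟩) ?_ ?_ ?_ ?_ ?_
  · rintro ⟨x, V⟩ hp
    simp only [mem_sigma, mem_filter, mem_powerset, mem_sdiff] at hp ⊢
    obtain ⟨⟨h1, h2⟩, h3, h4⟩ := hp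
    rw [insert_subset_iff] at h4
    exact ⟨⟨h3, h4.2⟩, h4.1, h2⟩
  · rintro ⟨V, x⟩ hp
    simp only [mem_sigma, mem_filter, mem_powerset, mem_sdiff] at hp ⊢
    obtain ⟨⟨h1, h2⟩, h3, h4⟩ := hp
    exact ⟨⟨h1 h3, h4⟩, h1, insert_subset h3 h2⟩
  · rintro ⟨x, V⟩ _; rfl
  · rintro ⟨V, x⟩ _; rfl
  · rintro ⟨x, V⟩ _; rfl

/-- The average of a path sum is a weighted sum over the sets of the cube. -/
theorem Eo_psum (D : Finset α) (Φ : Finset α → α → List α → ℝ) : ∀ (n : ℕ) (X : Finset α), X ⊆ D →
    (D \ X).card = n →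
    Eo (D \ X) (psum Φ X) = ∑ V ∈ D.powerset.filter (fun V => X ⊆ V),
      ((∑ x ∈ D \ V, Eo (D \ insert x V) (Φ V x)) / ((D \ V).card : ℝ)) /
        ((D \ X).card.choose (V \ X).card : ℝ) := by
  intro n
  induction n with
  | zero =>
    intro X hX hn
    have hXD : X = D := Subset.antisymm hX (sdiff_eq_empty_iff_subset.1 (card_eq_zero.1 hn))
    subst hXD
    have h1 : X.powerset.filter (fun V => X ⊆ V) = {X} := by
      ext V
      simp only [mem_filter, mem_powerset, mem_singleton]
      constructor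
      · rintro ⟨h1, h2⟩; exact Subset.antisymm h1 h2
      · rintro rfl; exact ⟨Subset.refl _, Subset.refl _⟩
    rw [h1, sum_singleton, sdiff_self, Finset.bot_eq_empty, Eo_empty]
    simp [psum]
  | succ n ih =>
    intro X hX hn
    have hne : (D \ X).Nonempty := card_pos.1 (by omega)
    have hXD : X ≠ D := by rintro rfl; simp at hne
    obtain ⟨g, hg⟩ : ∃ g : Finset α → ℝ, ∀ V,
      (∑ x ∈ D \ V, Eo (D \ insert x V) (Φ V x)) / ((D \ V).card : ℝ) = g V := ⟨_, fun _ => rfl⟩
    simp only [hg] at ih ⊢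
    rw [Eo_rec hne, hn]
    have hstep : ∀ x ∈ D \ X, insert x X ⊆ D ∧ (D \ insert x X).card = n := by
      intro x hx
      refine ⟨insert_subset (mem_sdiff.1 hx).1 hX, ?_⟩
      rw [← sdiff_insert_erase, card_erase_of_mem hx, hn]; rfl
    have h1 : ∀ x ∈ D \ X, Eo ((D \ X).erase x) (fun π => psum Φ X (x :: π)) =
        Eo (D \ insert x X) (Φ X x) +
          ∑ V ∈ D.powerset.filter (fun V => insert x X ⊆ V),
            g V / (n.choose (V \ insert x X).card : ℝ) := by
      intro x hx
      rw [sdiff_insert_erase]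
      show Eo (D \ insert x X) (fun π => Φ X x π + psum Φ (insert x X) π) = _
      rw [Eo_add, ih _ (hstep x hx).1 (hstep x hx).2, (hstep x hx).2]
    rw [sum_congr rfl h1, sum_add_distrib,
      sum_step D X (fun V x => g V / (n.choose (V \ insert x X).card : ℝ))]
    have h2 : ∀ V ∈ D.powerset.filter (fun V => X ⊆ V),
        ∑ x ∈ V \ X, g V / (n.choose (V \ insert x X).card : ℝ) =
          if V = X then 0 else ((n : ℝ) + 1) * (g V / ((n + 1).choose (V \ X).card : ℝ)) := by
      intro V hV
      rw [mem_filter, mem_powerset] at hV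
      by_cases hVX : V = X
      · rw [if_pos hVX, hVX, sdiff_self, Finset.bot_eq_empty, sum_empty]
      · rw [if_neg hVX]
        have hpos : (V \ X).Nonempty := by
          rw [nonempty_iff_ne_empty, Ne, sdiff_eq_empty_iff_subset]
          exact fun h => hVX (Subset.antisymm h hV.2)
        obtain ⟨i, hi⟩ : ∃ i, (V \ X).card = i + 1 :=
          Nat.exists_eq_succ_of_ne_zero (card_pos.2 hpos).ne'
        have h3 : ∀ x ∈ V \ X, g V / (n.choose (V \ insert x X).card : ℝ) =
            g V / (n.choose i : ℝ) := by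
          intro x hx
          rw [← sdiff_insert_erase, card_erase_of_mem hx, hi]; rfl
        rw [sum_congr rfl h3, sum_const, hi, nsmul_eq_mul]
        have hin : i + 1 ≤ n + 1 := by
          rw [← hi, ← hn]
          exact card_le_card (sdiff_subset_sdiff hV.1 (Subset.refl _))
        have h5 : ((n + 1 : ℕ) : ℝ) * (n.choose i : ℝ) =
            ((n + 1).choose (i + 1) : ℝ) * ((i + 1 : ℕ) : ℝ) := by
          exact_mod_cast Nat.add_one_mul_choose_eq n i
        have hp1 : (0 : ℝ) < (n.choose i : ℝ) := by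
          exact_mod_cast Nat.choose_pos (by omega)
        have hp2 : (0 : ℝ) < ((n + 1).choose (i + 1) : ℝ) := by
          exact_mod_cast Nat.choose_pos (by omega)
        push_cast at h5 ⊢
        rw [mul_div_assoc', mul_div_assoc', div_eq_div_iff hp1.ne' hp2.ne']
        linear_combination (-(g V)) * h5
    rw [sum_congr rfl h2]
    have hXm : X ∈ D.powerset.filter (fun V => X ⊆ V) :=
      mem_filter.2 ⟨mem_powerset.2 hX, Subset.refl _⟩
    rw [← add_sum_erase _ _ hXm, ← add_sum_erase _ _ hXm, if_pos rfl, zero_add]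
    have h6 : ∀ V ∈ (D.powerset.filter (fun V => X ⊆ V)).erase X,
        (if V = X then 0 else ((n : ℝ) + 1) * (g V / ((n + 1).choose (V \ X).card : ℝ))) =
          ((n : ℝ) + 1) * (g V / ((n + 1).choose (V \ X).card : ℝ)) := by
      intro V hV
      rw [if_neg (mem_erase.1 hV).1]
    rw [sum_congr rfl h6, ← mul_sum, sdiff_self, Finset.bot_eq_empty, card_empty, Nat.choose_zero_right,
      Nat.cast_one, div_one, ← hg X, hn]
    push_cast
    have : ((n : ℝ) + 1) ≠ 0 := by positivity
    field_simp

/-- The value of the last object of a path above `X` (colour L). -/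
noncomputable def phiS (τ : Finset α → Lab) (D : Finset α) (ρ : α → ℝ) (n : ℝ) (X : Finset α)
    (mk : Finset α → Finset α) : Finset α → α → List α → ℝ := fun U x π =>
  (if isE τ U x then gd τ (insert x U) π * (Real.log n - Real.log (ρ x) +
      csum (sc ρ n X (insert x U) (mk (insert x U))) (insert x U) π + gm mk D (insert x U)) else 0) +
  (if τ U = Lab.X then gd τ (insert x U) π * (csum (sc ρ n X U (mk U)) U (x :: π) +
      gm mk D U) else 0)

theorem Eo_gd {τ : Finset α → Lab} {D U : Finset α} (hU : U ⊆ D) (hB : τ D = Lab.B) :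
    Eo (D \ U) (gd τ U) = bw τ D U := by
  unfold Eo
  rw [(stmt_ORD τ D U hU hB).1]
  have := fac_pos (D \ U).card
  field_simp

theorem Eo_gd_csum {τ : Finset α → Lab} {D U : Finset α} (hU : U ⊆ D) (hB : τ D = Lab.B)
    (c : Finset α → ℝ) : Eo (D \ U) (fun π => gd τ U π * csum c U π) = ec τ D c U := by
  unfold Eo
  rw [(stmt_ORD τ D U hU hB).2]
  have := fac_pos (D \ U).card
  field_simp

/-- The S side of one state. -/
noncomputable def SX (τ : Finset α → Lab) (D : Finset α) (ρ : α → ℝ)
    (mk : Finset α → Finset α) (X : Finset α) : ℝ :=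
  Eo (D \ X) (psum (phiS τ D ρ ((D \ X).card : ℝ) X mk) X)

/-- Probability of the state `X` on the S side. -/
noncomputable def PX (τ : Finset α → Lab) (D X : Finset α) : ℝ :=
  fw τ X / (((D.card : ℝ) + 1) * (D.card.choose X.card : ℝ))

/-- PATH: the gain of the S side as an average over the orders. -/
theorem SGc_path (τ : Finset α → Lab) (D : Finset α) (hB : τ D = Lab.B)
    (ρ : Finset α → α → ℝ) (mk : Finset α → Finset α) :
    SGc τ D ρ mk = ∑ X ∈ D.powerset, PX τ D X * SX τ D (ρ X) mk X := by
  unfold SGc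
  refine sum_congr rfl fun X hX => ?_
  rw [mem_powerset] at hX
  unfold SX
  rw [Eo_psum D _ _ X hX rfl]
  set n : ℝ := ((D \ X).card : ℝ) with hn
  have hnX : (D.card : ℝ) - X.card = n := by rw [hn, card_sdiff_cast hX]
  -- the first sum
  have e1 : ∑ g ∈ D \ X, PP1 τ D X g * (Real.log n - Real.log (ρ X g)) =
      ∑ V ∈ D.powerset, ∑ x ∈ D \ V, pe τ D X V x * (Real.log n - Real.log (ρ X x)) := by
    have e2 : ∀ g ∈ D \ X, PP1 τ D X g * (Real.log n - Real.log (ρ X g)) =
        ∑ V ∈ D.powerset, if g ∉ V then pe τ D X V g * (Real.log n - Real.log (ρ X g)) else 0 := by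
      intro g hg
      unfold PP1
      rw [sum_mul, ← sum_filter]
      refine sum_congr ?_ fun _ _ => rfl
      ext V
      simp only [mem_powerset, mem_filter, subset_erase]
    rw [sum_congr rfl e2, sum_comm]
    refine sum_congr rfl fun V hV => ?_
    rw [← sum_filter]
    by_cases hXV : X ⊆ V
    · refine sum_congr ?_ fun _ _ => rfl
      ext x
      simp only [mem_filter, mem_sdiff]
      constructor
      · rintro ⟨⟨h1, h2⟩, h3⟩; exact ⟨h1, h3⟩
      · rintro ⟨h1, h3⟩; exact ⟨⟨h1, fun h => h3 (hXV h)⟩, h3⟩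
    · rw [sum_eq_zero, sum_eq_zero]
      · intro x _
        unfold pe
        rw [if_neg (fun h => hXV h.1), zero_mul]
      · intro x _
        unfold pe
        rw [if_neg (fun h => hXV h.1), zero_mul]
  rw [e1, ← sum_add_distrib, ← sum_add_distrib, mul_sum]
  rw [← sum_filter_add_sum_filter_not D.powerset (fun V => X ⊆ V)]
  have e3 : ∑ V ∈ D.powerset.filter (fun V => ¬ X ⊆ V),
      (∑ x ∈ D \ V, pe τ D X V x * (Real.log n - Real.log (ρ X x)) +
        ∑ x ∈ D \ V, (pe1 τ D X V x * ec τ D (SS ρ mk D X (insert x V)) (insert x V) +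
          pe τ D X V x * gm mk D (insert x V)) +
        (pv1 τ D X V * ev τ D (SS ρ mk D X V) V + pv τ D X V * gm mk D V)) = 0 := by
    refine sum_eq_zero fun V hV => ?_
    have hXV := (mem_filter.1 hV).2
    have z1 : ∀ x, pe τ D X V x = 0 := fun x => if_neg (fun h => hXV h.1)
    have z2 : ∀ x, pe1 τ D X V x = 0 := fun x => if_neg (fun h => hXV h.1)
    have z3 : pv τ D X V = 0 := if_neg (fun h => hXV h.1)
    have z4 : pv1 τ D X V = 0 := if_neg (fun h => hXV h.1)
    simp [z1, z2, z3, z4]
  rw [e3, add_zero]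
  refine sum_congr rfl fun V hV => ?_
  rw [mem_filter, mem_powerset] at hV
  obtain ⟨hVD, hXV⟩ := hV
  have hVX : (V \ X).card = V.card - X.card := card_sdiff_of_subset hXV
  have hDX : (D \ X).card = D.card - X.card := card_sdiff_of_subset hX
  have hDV : ((D \ V).card : ℝ) = (D.card : ℝ) - V.card := card_sdiff_cast hVD
  have hw : PX τ D X * ((∑ x ∈ D \ V, Eo (D \ insert x V) (phiS τ D (ρ X) n X mk V x)) /
      ((D \ V).card : ℝ) / ((D \ X).card.choose (V \ X).card : ℝ)) =
      ∑ x ∈ D \ V, fw τ X / (((D.card : ℝ) + 1) * (D.card.choose X.card : ℝ) *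
      ((D.card - X.card).choose (V.card - X.card) : ℝ) * ((D.card : ℝ) - (V.card : ℝ))) *
        Eo (D \ insert x V) (phiS τ D (ρ X) n X mk V x) := by
    rw [← mul_sum, hVX, hDX, hDV]
    unfold PX
    rw [div_div, div_mul_div_comm, ← mul_div_right_comm]
    congr 1
    ring
  rw [hw]
  have hSS : ∀ U, SS ρ mk D X U = sc (ρ X) n X U (mk U) := by
    intro U; unfold SS; rw [hnX]
  have hx : ∀ x ∈ D \ V, Eo (D \ insert x V) (phiS τ D (ρ X) n X mk V x) =
      (if isE τ V x then bw τ D (insert x V) * (Real.log n - Real.log (ρ X x)) +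
        ec τ D (SS ρ mk D X (insert x V)) (insert x V) +
        bw τ D (insert x V) * gm mk D (insert x V) else 0) +
      (if τ V = Lab.X then SS ρ mk D X V V * bw τ D (insert x V) +
        ec τ D (SS ρ mk D X V) (insert x V) + bw τ D (insert x V) * gm mk D V else 0) := by
    intro x hx
    have hxD : insert x V ⊆ D := insert_subset (mem_sdiff.1 hx).1 hVD
    unfold phiS
    rw [Eo_add]
    congr 1
    · by_cases h : isE τ V x
      · simp only [if_pos h]
        rw [← Eo_gd hxD hB, ← Eo_gd_csum hxD hB, ← Eo_mul_right, ← Eo_mul_right, ← Eo_add, ← Eo_add]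
        refine Eo_congr fun π _ => ?_
        rw [hSS]
        ring
      · simp only [if_neg h]
        exact Eo_zero _
    · by_cases h : τ V = Lab.X
      · simp only [if_pos h]
        rw [← Eo_gd hxD hB, ← Eo_gd_csum hxD hB, ← Eo_mul_right, ← Eo_mul, ← Eo_add, ← Eo_add]
        refine Eo_congr fun π _ => ?_
        rw [hSS]
        show _ * ((_ + csum _ _ π) + _) = _
        ring
      · simp only [if_neg h]
        exact Eo_zero _
  have hR : ∑ x ∈ D \ V, fw τ X / (((D.card : ℝ) + 1) * (D.card.choose X.card : ℝ) *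
      ((D.card - X.card).choose (V.card - X.card) : ℝ) * ((D.card : ℝ) - (V.card : ℝ))) *
        Eo (D \ insert x V) (phiS τ D (ρ X) n X mk V x) =
      ∑ x ∈ D \ V, fw τ X / (((D.card : ℝ) + 1) * (D.card.choose X.card : ℝ) *
      ((D.card - X.card).choose (V.card - X.card) : ℝ) * ((D.card : ℝ) - (V.card : ℝ))) *
      (if isE τ V x then bw τ D (insert x V) * (Real.log n - Real.log (ρ X x)) +
        ec τ D (SS ρ mk D X (insert x V)) (insert x V) +
        bw τ D (insert x V) * gm mk D (insert x V) else 0) +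
      ∑ x ∈ D \ V, fw τ X / (((D.card : ℝ) + 1) * (D.card.choose X.card : ℝ) *
      ((D.card - X.card).choose (V.card - X.card) : ℝ) * ((D.card : ℝ) - (V.card : ℝ))) *
      (if τ V = Lab.X then SS ρ mk D X V V * bw τ D (insert x V) +
        ec τ D (SS ρ mk D X V) (insert x V) + bw τ D (insert x V) * gm mk D V else 0) := by
    rw [← sum_add_distrib]
    refine sum_congr rfl fun x hx' => ?_
    rw [hx x hx']
    ring
  rw [hR]
  -- vertex part
  have hv : ∑ x ∈ D \ V, fw τ X / (((D.card : ℝ) + 1) * (D.card.choose X.card : ℝ) *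
      ((D.card - X.card).choose (V.card - X.card) : ℝ) * ((D.card : ℝ) - (V.card : ℝ))) *
      (if τ V = Lab.X then SS ρ mk D X V V * bw τ D (insert x V) +
        ec τ D (SS ρ mk D X V) (insert x V) + bw τ D (insert x V) * gm mk D V else 0) =
      pv1 τ D X V * ev τ D (SS ρ mk D X V) V + pv τ D X V * gm mk D V := by
    by_cases h : τ V = Lab.X
    · have hVne : V ≠ D := by rintro rfl; rw [hB] at h; exact absurd h (by decide)
      have hpos : (0 : ℝ) < (D.card : ℝ) - V.card := by
        have : V.card < D.card := card_lt_card (Finset.ssubset_iff_subset_ne.2 ⟨hVD, hVne⟩)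
        have : (V.card : ℝ) < D.card := by exact_mod_cast this
        linarith
      have hc1 : (0 : ℝ) < (D.card.choose X.card : ℝ) := choose_pos_real (card_le_card hX)
      have hc2 : (0 : ℝ) < ((D.card - X.card).choose (V.card - X.card) : ℝ) :=
        choose_pos_real (Nat.sub_le_sub_right (card_le_card hVD) _)
      simp only [if_pos h]
      unfold pv1 pv ev bwb
      rw [if_pos ⟨hXV, h⟩, if_pos ⟨hXV, h⟩, ← mul_sum, sum_add_distrib, sum_add_distrib, ← mul_sum,
        ← sum_mul, hDV]
      field_simp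
    · have z3 : pv τ D X V = 0 := if_neg (fun h' => h h'.2)
      have z4 : pv1 τ D X V = 0 := if_neg (fun h' => h h'.2)
      simp [z3, z4, h]
  rw [hv]
  have he : ∀ x ∈ D \ V, fw τ X / (((D.card : ℝ) + 1) * (D.card.choose X.card : ℝ) *
      ((D.card - X.card).choose (V.card - X.card) : ℝ) * ((D.card : ℝ) - (V.card : ℝ))) *
      (if isE τ V x then bw τ D (insert x V) * (Real.log n - Real.log (ρ X x)) +
        ec τ D (SS ρ mk D X (insert x V)) (insert x V) +
        bw τ D (insert x V) * gm mk D (insert x V) else 0) =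
      pe τ D X V x * (Real.log n - Real.log (ρ X x)) +
        (pe1 τ D X V x * ec τ D (SS ρ mk D X (insert x V)) (insert x V) +
        pe τ D X V x * gm mk D (insert x V)) := by
    intro x _
    unfold pe pe1
    by_cases h : isE τ V x
    · rw [if_pos h, if_pos ⟨hXV, h⟩, if_pos ⟨hXV, h⟩]
      ring
    · rw [if_neg h, if_neg (fun h' => h h'.2), if_neg (fun h' => h h'.2)]
      ring
  rw [sum_congr rfl he]
  simp only [sum_add_distrib]

end R5
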