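import Mathlib

/-!
# Word inequalities for the rotation of one element (note 1461, helper58; note 1477, helper3)

`b` = first position from which the upper word is constantly `B`, `p i` = the lower word has label
`A` at position `i`, `a i` = length of the initial `A`-run before `i`.
-/

namespace R5

open Finset

theorem sum_lin (c : ℤ) (a b : ℕ) (h : a ≤ b) :
    ∑ i ∈ Ico a b, (2 * (i : ℤ) + c) = ((b : ℤ) - a) * (a + b - 1 + c) := by
  induction b, h using Nat.le_induction with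
  | base => simp
  | succ b hab ih =>
    rw [sum_Ico_succ_top hab, ih]
    push_cast
    ring

theorem sum_lin_neg (c : ℤ) (a b : ℕ) (h : a ≤ b) :
    ∑ i ∈ Ico a b, (c - 2 * (i : ℤ)) = ((b : ℤ) - a) * (c + 1 - a - b) := by
  have := sum_lin (-c) a b h
  have h2 : ∑ i ∈ Ico a b, (c - 2 * (i : ℤ)) = -∑ i ∈ Ico a b, (2 * (i : ℤ) + -c) := by
    rw [← sum_neg_distrib]
    exact sum_congr rfl fun i _ => by ring
  rw [h2, this]
  ring

theorem word_g (n d e : ℕ) (c : ℤ) (h1 : n ≤ d + 1 + e) (hde : d ≤ e) (h2 : 2 * d + 1 ≤ n) :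
    ∑ i ∈ Ico d e, (if i + d + 1 < n then 2 * (i : ℤ) + c - n else 0) =
      ((n : ℤ) - 1 - 2 * d) * (c - 2) := by
  have h3 : d ≤ n - 1 - d := by omega
  have h4 : n - 1 - d ≤ e := by omega
  rw [← sum_Ico_consecutive _ h3 h4]
  have h5 : ∑ i ∈ Ico d (n - 1 - d), (if i + d + 1 < n then 2 * (i : ℤ) + c - n else 0) =
      ∑ i ∈ Ico d (n - 1 - d), (2 * (i : ℤ) + (c - n)) := by
    refine sum_congr rfl fun i hi => ?_
    rw [mem_Ico] at hi
    rw [if_pos (by omega)]
    ring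
  have h6 : ∑ i ∈ Ico (n - 1 - d) e, (if i + d + 1 < n then 2 * (i : ℤ) + c - n else 0) = 0 := by
    refine sum_eq_zero fun i hi => ?_
    rw [mem_Ico] at hi
    rw [if_neg (by omega)]
  rw [h5, h6, sum_lin _ _ _ h3, add_zero]
  have h7 : ((n - 1 - d : ℕ) : ℤ) = (n : ℤ) - 1 - d := by omega
  rw [h7]
  ring

theorem word_g0 (n d e : ℕ) (h1 : n ≤ d + 1 + e) (hde : d ≤ e) :
    0 ≤ ∑ i ∈ Ico d e, (if i + d + 1 < n then 2 * (i : ℤ) + 2 - n else 0) := by
  by_cases h2 : 2 * d + 1 ≤ n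
  · rw [word_g n d e 2 h1 hde h2]
    simp
  · rw [sum_eq_zero]
    intro i hi
    rw [mem_Ico] at hi
    rw [if_neg (by omega)]

theorem word_g1 (n d e : ℕ) (h1 : n ≤ d + 1 + e) (hde : d ≤ e) (hn : 1 ≤ n) :
    -((n : ℤ) - 1) ≤ ∑ i ∈ Ico d e, (if i + d + 1 < n then 2 * (i : ℤ) + 1 - n else 0) ∧
    -((n : ℤ) - d) ≤ ∑ i ∈ Ico d e, (if i + d + 1 < n then 2 * (i : ℤ) + 1 - n else 0) ∨
      n < d + 1 := by
  by_cases h2 : 2 * d + 1 ≤ n
  · left
    rw [word_g n d e 1 h1 hde h2]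
    constructor <;> nlinarith
  · by_cases h3 : n < d + 1
    · exact Or.inr h3
    · left
      have : ∑ i ∈ Ico d e, (if i + d + 1 < n then 2 * (i : ℤ) + 1 - n else 0) = 0 := by
        rw [sum_eq_zero]
        intro i hi
        rw [mem_Ico] at hi
        rw [if_neg (by omega)]
      rw [this]
      constructor <;> omega

section

variable (n b : ℕ) (p : ℕ → Prop) [DecidablePred p] (a : ℕ → ℤ)

/-- Lower bound for the terms above the first position without `A`. -/
theorem word_tail (d e : ℕ) (hd : ¬ p d) (ha2 : ∀ i d, ¬ p d → d < i → a i ≤ d - 1) (c : ℤ)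
    (hc : c = 1 ∨ c = 2) :
    ∑ i ∈ Ico d e, (if i + d + 1 < n then 2 * (i : ℤ) + c - n else 0) ≤
      ∑ i ∈ Ico d e, (if p i then (i : ℤ) - a i else 2 * (i : ℤ) + c - n) := by
  refine sum_le_sum fun i hi => ?_
  rw [mem_Ico] at hi
  by_cases hp : p i
  · rw [if_pos hp]
    have hid : d < i := by
      rcases hi.1.lt_or_eq with h | h
      · exact h
      · exact absurd (h ▸ hp) hd
    have := ha2 i d hd hid
    split_ifs with h
    · rcases hc with rfl | rfl <;> omega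
    · omega
  · rw [if_neg hp]
    split_ifs with h
    · exact le_refl _
    · rcases hc with rfl | rfl <;> omega

theorem word_head (d : ℕ) (ha : ∀ i, a i ≤ i) (hd : ∀ i, b ≤ i → i < d → p i) (c : ℤ) :
    0 ≤ ∑ i ∈ Ico b d, (if p i then (i : ℤ) - a i else 2 * (i : ℤ) + c - n) := by
  refine sum_nonneg fun i hi => ?_
  rw [mem_Ico] at hi
  rw [if_pos (hd i hi.1 hi.2)]
  have := ha i
  omega

/-- The sum of the terms `s_i` is nonnegative. -/
theorem word_s (hb : b ≤ n) (ha : ∀ i, a i ≤ i) (ha2 : ∀ i d, ¬ p d → d < i → a i ≤ d - 1)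
    (e : ℕ) (he : e = n ∨ e + 1 = n) (h0 : p 0) (hbe : b ≤ e) :
    0 ≤ ∑ i ∈ Ico b e, (if p i then (i : ℤ) - a i else 2 * (i : ℤ) + 2 - n) := by
  by_cases hD : ∃ d, b ≤ d ∧ d < e ∧ ¬ p d
  · have hd := Nat.find_spec hD
    set d := Nat.find hD with hdd
    have hmin : ∀ i, b ≤ i → i < d → p i := by
      intro i h1 h2
      by_contra h3
      exact Nat.find_min hD h2 ⟨h1, h2.trans hd.2.1, h3⟩
    have hd1 : 1 ≤ d := by
      rcases Nat.eq_zero_or_pos d with h | h
      · rw [h] at hd; exact absurd h0 hd.2.2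
      · exact h
    rw [← sum_Ico_consecutive _ hd.1 hd.2.1.le]
    have e1 := word_head n b p a d ha hmin 2
    have e2 := word_tail n p a d e hd.2.2 ha2 2 (Or.inr rfl)
    have e3 := word_g0 n d e (by omega) hd.2.1.le
    linarith
  · push Not at hD
    exact word_head n b p a e ha (fun i h1 h2 => hD i h1 h2) 2

theorem word_filter (c : ℤ) (f : ℕ → ℤ) (e : ℕ) :
    ∑ i ∈ (Ico b e).filter p, (f i + c) = ∑ i ∈ Ico b e, (if p i then f i + c else 0) :=
  sum_filter _ _

/-- (i): no light. -/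
theorem word_one (hb : b < n) (h0 : p 0) (ha : ∀ i, a i ≤ i)
    (ha2 : ∀ i d, ¬ p d → d < i → a i ≤ d - 1) (hlast : ¬ p (n - 1)) :
    ∑ i ∈ (Ico b n).filter p, (a i + 1) ≤
      ∑ i ∈ (Ico b n).filter p, ((n : ℤ) - 1 - i) + b * (n - 1 - b) := by
  have h1 := word_s n b p a hb.le ha ha2 (n - 1) (Or.inr (by omega)) h0 (by omega)
  have h2 : ∑ i ∈ Ico b n, (if p i then (i : ℤ) - a i else 2 * (i : ℤ) + 2 - n) =
      ∑ i ∈ Ico b (n - 1), (if p i then (i : ℤ) - a i else 2 * (i : ℤ) + 2 - n) + n := by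
    obtain ⟨m, rfl⟩ : ∃ m, n = m + 1 := ⟨n - 1, by omega⟩
    rw [sum_Ico_succ_top (by omega)]
    have : m + 1 - 1 = m := rfl
    rw [this] at hlast ⊢
    rw [if_neg hlast]
    push_cast
    ring
  have h3 := sum_lin_neg ((n : ℤ) - 2) b n hb.le
  have h4 : ∑ i ∈ (Ico b n).filter p, ((n : ℤ) - 1 - i) - ∑ i ∈ (Ico b n).filter p, (a i + 1) =
      ∑ i ∈ Ico b n, (if p i then (i : ℤ) - a i else 2 * (i : ℤ) + 2 - n) +
        ∑ i ∈ Ico b n, ((n : ℤ) - 2 - 2 * (i : ℤ)) := by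
    rw [← sum_sub_distrib, sum_filter, ← sum_add_distrib]
    refine sum_congr rfl fun i _ => ?_
    split_ifs <;> ring
  have h5 : ∑ i ∈ (Ico b n).filter p, ((n : ℤ) - 1 - i) + (b : ℤ) * (n - 1 - b) -
      ∑ i ∈ (Ico b n).filter p, (a i + 1) =
      ∑ i ∈ Ico b (n - 1), (if p i then (i : ℤ) - a i else 2 * (i : ℤ) + 2 - n) := by
    rw [h2, h3] at h4
    linear_combination h4
  linarith

/-- (iii): any element. -/
theorem word_three (hb : b < n) (h0 : p 0) (ha : ∀ i, a i ≤ i)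
    (ha2 : ∀ i d, ¬ p d → d < i → a i ≤ d - 1) :
    ∑ i ∈ (Ico b n).filter p, (a i + 1) ≤
      ∑ i ∈ (Ico b n).filter p, ((n : ℤ) - 1 - i) + b * (n - 1 - b) + n := by
  have h1 := word_s n b p a hb.le ha ha2 n (Or.inl rfl) h0 hb.le
  have h3 := sum_lin_neg ((n : ℤ) - 2) b n hb.le
  have h4 : ∑ i ∈ (Ico b n).filter p, ((n : ℤ) - 1 - i) - ∑ i ∈ (Ico b n).filter p, (a i + 1) =
      ∑ i ∈ Ico b n, (if p i then (i : ℤ) - a i else 2 * (i : ℤ) + 2 - n) +
        ∑ i ∈ Ico b n, ((n : ℤ) - 2 - 2 * (i : ℤ)) := by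
    rw [← sum_sub_distrib, sum_filter, ← sum_add_distrib]
    refine sum_congr rfl fun i _ => ?_
    split_ifs <;> ring
  have h5 : ∑ i ∈ (Ico b n).filter p, ((n : ℤ) - 1 - i) + (b : ℤ) * (n - 1 - b) + n -
      ∑ i ∈ (Ico b n).filter p, (a i + 1) =
      ∑ i ∈ Ico b n, (if p i then (i : ℤ) - a i else 2 * (i : ℤ) + 2 - n) := by
    rw [h3] at h4
    linear_combination h4
  linarith

/-- (ii): the only light element. -/
theorem word_two (hb : b < n) (h0 : p 0) (ha : ∀ i, a i ≤ i)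
    (ha2 : ∀ i d, ¬ p d → d < i → a i ≤ d - 1) :
    ∑ i ∈ (Ico b n).filter p, a i ≤
      ∑ i ∈ (Ico b n).filter p, ((n : ℤ) - 1 - i) + b * (n - b) := by
  have h1 : 0 ≤ ∑ i ∈ Ico b n, (if p i then (i : ℤ) - a i else 2 * (i : ℤ) + 1 - n) := by
    by_cases hD : ∃ d, b ≤ d ∧ d < n ∧ ¬ p d
    · have hd := Nat.find_spec hD
      set d := Nat.find hD with hdd
      have hmin : ∀ i, b ≤ i → i < d → p i := by
        intro i h1 h2
        by_contra h3
        exact Nat.find_min hD h2 ⟨h1, h2.trans hd.2.1, h3⟩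
      have hd1 : 1 ≤ d := by
        rcases Nat.eq_zero_or_pos d with h | h
        · rw [h] at hd; exact absurd h0 hd.2.2
        · exact h
      rw [← sum_Ico_consecutive _ hd.1 hd.2.1.le]
      have e1 := word_head n b p a d ha hmin 1
      by_cases hdn : d = n - 1
      · obtain ⟨m, rfl⟩ : ∃ m, n = m + 1 := ⟨n - 1, by omega⟩
        have hdm : d = m := hdn
        rw [hdm] at hd e1 ⊢
        rw [sum_Ico_succ_top (le_refl _), Ico_self, sum_empty, if_neg hd.2.2]
        push_cast at e1 ⊢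
        linarith
      · have e2 := word_tail n p a d (n - 1) hd.2.2 ha2 1 (Or.inl rfl)
        have e3 := word_g1 n d (n - 1) (by omega) (by omega) (by omega)
        obtain ⟨m, rfl⟩ : ∃ m, n = m + 1 := ⟨n - 1, by omega⟩
        have hm : m + 1 - 1 = m := rfl
        rw [hm] at e2 e3 hdn
        have hdm : d < m := by omega
        rw [sum_Ico_succ_top (by omega)]
        rcases e3 with ⟨e4, e5⟩ | e3
        · by_cases hpm : p m
          · rw [if_pos hpm]
            have := ha2 m d hd.2.2 hdm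
            push_cast at e1 e2 e4 e5 ⊢
            linarith
          · rw [if_neg hpm]
            push_cast at e1 e2 e4 e5 ⊢
            linarith
        · omega
    · push Not at hD
      exact word_head n b p a n ha (fun i h1 h2 => hD i h1 h2) 1
  have h3 := sum_lin_neg ((n : ℤ) - 1) b n hb.le
  have h4 : ∑ i ∈ (Ico b n).filter p, ((n : ℤ) - 1 - i) - ∑ i ∈ (Ico b n).filter p, a i =
      ∑ i ∈ Ico b n, (if p i then (i : ℤ) - a i else 2 * (i : ℤ) + 1 - n) +
        ∑ i ∈ Ico b n, ((n : ℤ) - 1 - 2 * (i : ℤ)) := by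
    rw [← sum_sub_distrib, sum_filter, ← sum_add_distrib]
    refine sum_congr rfl fun i _ => ?_
    split_ifs <;> ring
  have h5 : ∑ i ∈ (Ico b n).filter p, ((n : ℤ) - 1 - i) + (b : ℤ) * (n - b) -
      ∑ i ∈ (Ico b n).filter p, a i =
      ∑ i ∈ Ico b n, (if p i then (i : ℤ) - a i else 2 * (i : ℤ) + 1 - n) := by
    rw [h3] at h4
    linear_combination h4
  linarith

end

end R5
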