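import Pool.Agent.Work.MP_8b6acb_ti_helper32.Tot
import Pool.Agent.Work.MP_8b6acb_ti_helper32.Word
import Pool.Agent.Work.MP_8b6acb_cap.INF

/-!
# (S0'): the value of a state of the S side (notes 1461 and 1477)

The average of the smallest value of a state `X` is at least
`lamn N * (E[leI * arun] + (1 - a) * E[leI])`, `a` = number of elements `x` with `τ (D - x) = A`.
-/

namespace R5

open Finset

variable {α : Type} [DecidableEq α]

/-! ## Path sums -/

theorem psum_append (Φ : Finset α → α → List α → ℝ) (π1 π2 : List α) : ∀ U : Finset α,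
    psum Φ U (π1 ++ π2) = psum (fun V x π => Φ V x (π ++ π2)) U π1 +
      psum Φ (U ∪ π1.toFinset) π2 := by
  induction π1 with
  | nil => intro U; simp [psum]
  | cons y π ih =>
    intro U
    show Φ U y (π ++ π2) + psum Φ (insert y U) (π ++ π2) = (Φ U y (π ++ π2) + psum _ (insert y U) π) + _
    rw [ih]
    have : insert y U ∪ π.toFinset = U ∪ (y :: π).toFinset := by
      rw [List.toFinset_cons, insert_union, union_insert]
    rw [this]
    ring

theorem psum_nonneg {Φ : Finset α → α → List α → ℝ} (h : ∀ V x π, 0 ≤ Φ V x π) (π : List α) :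
    ∀ U : Finset α, 0 ≤ psum Φ U π := by
  induction π with
  | nil => intro U; exact le_refl _
  | cons y π ih =>
    intro U
    exact add_nonneg (h _ _ _) (ih _)

theorem psum_ge {Φ : Finset α → α → List α → ℝ} (h : ∀ V x π, 0 ≤ Φ V x π) (U : Finset α)
    (π1 : List α) (y : α) (π2 : List α) :
    Φ (U ∪ π1.toFinset) y π2 ≤ psum Φ U (π1 ++ y :: π2) := by
  rw [psum_append]
  have h1 := psum_nonneg (Φ := fun V x π => Φ V x (π ++ y :: π2)) (fun V x π => h _ _ _) π1 U
  have h2 := psum_nonneg h π2 (insert y (U ∪ π1.toFinset))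
  show _ ≤ _ + (Φ (U ∪ π1.toFinset) y π2 + psum Φ _ π2)
  linarith

theorem psum_mono_path (Φ Ψ : Finset α → α → List α → ℝ) (π : List α) : ∀ U : Finset α,
    (∀ π1 y π2, π = π1 ++ y :: π2 → Φ (U ∪ π1.toFinset) y π2 ≤ Ψ (U ∪ π1.toFinset) y π2) →
    psum Φ U π ≤ psum Ψ U π := by
  induction π with
  | nil => intro U _; exact le_refl _
  | cons y π ih =>
    intro U h
    refine add_le_add ?_ (ih _ ?_)
    · have := h [] y π rfl
      simpa using this
    · intro π1 z π2 hπ
      have := h (y :: π1) z π2 (by rw [hπ]; rfl)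
      have e : U ∪ (y :: π1).toFinset = insert y U ∪ π1.toFinset := by
        rw [List.toFinset_cons, insert_union, union_insert]
      rwa [e] at this

theorem psum_congr_path (Φ Ψ : Finset α → α → List α → ℝ) (π : List α) (U : Finset α)
    (h : ∀ π1 y π2, π = π1 ++ y :: π2 → Φ (U ∪ π1.toFinset) y π2 = Ψ (U ∪ π1.toFinset) y π2) :
    psum Φ U π = psum Ψ U π :=
  le_antisymm (psum_mono_path Φ Ψ π U fun a b c d => (h a b c d).le)
    (psum_mono_path Ψ Φ π U fun a b c d => (h a b c d).ge)

theorem psum_zero (π : List α) : ∀ U : Finset α, psum (fun _ _ _ => 0) U π = 0 := by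
  induction π with
  | nil => intro U; rfl
  | cons y π ih =>
    intro U
    show 0 + psum _ _ π = 0
    rw [ih, zero_add]

theorem psum_sum {ι : Type} (K : Finset ι) (Φ : ι → Finset α → α → List α → ℝ) (π : List α) :
    ∀ U : Finset α, psum (fun U x π => ∑ i ∈ K, Φ i U x π) U π = ∑ i ∈ K, psum (Φ i) U π := by
  induction π with
  | nil => intro U; simp [psum]
  | cons y π ih =>
    intro U
    show _ + psum _ _ π = ∑ i ∈ K, (Φ i U y π + psum (Φ i) (insert y U) π)
    rw [ih, sum_add_distrib]

/-! ## Good words -/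

theorem gd_cases (τ : Finset α → Lab) (π : List α) : ∀ U : Finset α,
    gd τ U π = 0 ∨ gd τ U π = 1 := by
  induction π with
  | nil =>
    intro U
    show (if τ U = Lab.B then (1 : ℝ) else 0) = 0 ∨ (if τ U = Lab.B then (1 : ℝ) else 0) = 1
    split_ifs <;> simp
  | cons y π ih =>
    intro U
    show (if τ U = Lab.B then gd τ (insert y U) π else 0) = 0 ∨
      (if τ U = Lab.B then gd τ (insert y U) π else 0) = 1
    split_ifs
    · exact ih _
    · simp

theorem gd_nonneg (τ : Finset α → Lab) (U : Finset α) (π : List α) : 0 ≤ gd τ U π := by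
  rcases gd_cases τ π U with h | h <;> rw [h] <;> norm_num

theorem gd_one_lab {τ : Finset α → Lab} {U : Finset α} {π : List α} (h : gd τ U π = 1) :
    τ U = Lab.B := by
  cases π with
  | nil =>
    by_contra h2
    have : gd τ U [] = 0 := if_neg h2
    rw [this] at h
    norm_num at h
  | cons y π =>
    by_contra h2
    have : gd τ U (y :: π) = 0 := if_neg h2
    rw [this] at h
    norm_num at h

/-! ## Functionals of one element -/

/-- Value of a step without the logarithm of `n` and with the smallest costs. -/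
noncomputable def phiM (τ : Finset α → Lab) (ρ : α → ℝ) (N : ℝ) (X : Finset α) :
    Finset α → α → List α → ℝ := fun U x π =>
  (if isE τ U x then gd τ (insert x U) π * (-Real.log (ρ x) +
      (π.length : ℝ) * -Real.log (1 - (∑ g ∈ insert x U \ X, ρ g) / N)) else 0) +
  (if τ U = Lab.X then gd τ (insert x U) π * (((π.length : ℝ) + 1) *
      -Real.log (1 - (∑ g ∈ U \ X, ρ g) / N)) else 0)

/-- Indicator: the last object is an edge with the element `x`. -/
noncomputable def eI (τ : Finset α → Lab) (x : α) : Finset α → List α → ℝ :=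
  psum (fun U y π => if y = x ∧ isE τ U y then gd τ (insert y U) π else 0)

/-- Step of `qI`. -/
noncomputable def qs (τ : Finset α → Lab) (x : α) : Finset α → α → List α → ℝ := fun U y π =>
  (if isE τ U y ∧ x ∈ insert y U then gd τ (insert y U) π * (π.length : ℝ) else 0) +
  (if τ U = Lab.X ∧ x ∈ U then gd τ (insert y U) π * ((π.length : ℝ) + 1) else 0)

/-- Size of the rest above the last object, if the object contains `x`. -/
noncomputable def qI (τ : Finset α → Lab) (x : α) : Finset α → List α → ℝ := psum (qs τ x)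

theorem qs_nonneg (τ : Finset α → Lab) (x : α) (U : Finset α) (y : α) (π : List α) :
    0 ≤ qs τ x U y π := by
  unfold qs
  have := gd_nonneg τ (insert y U) π
  refine add_nonneg ?_ ?_
  · split_ifs
    · positivity
    · exact le_refl _
  · split_ifs
    · positivity
    · exact le_refl _

theorem leI_nonneg (τ : Finset α → Lab) (U : Finset α) (π : List α) : 0 ≤ leI τ U π := by
  unfold leI
  refine psum_nonneg (fun V x π => ?_) π U
  have := gd_nonneg τ (insert x V) π
  split_ifs
  · exact this
  · exact le_refl _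

theorem leI_ge (τ : Finset α → Lab) (U : Finset α) (π1 : List α) (y : α) (π2 : List α)
    (hE : isE τ (U ∪ π1.toFinset) y) (hg : gd τ (insert y (U ∪ π1.toFinset)) π2 = 1) :
    1 ≤ leI τ U (π1 ++ y :: π2) := by
  unfold leI
  refine le_trans ?_ (psum_ge (fun V x π => ?_) U π1 y π2)
  · simp only [if_pos hE, hg]; exact le_refl _
  · have := gd_nonneg τ (insert x V) π
    split_ifs
    · exact this
    · exact le_refl _

theorem eI_insert (τ : Finset α → Lab) (x : α) (U : Finset α) (π1 π2 : List α)
    (h1 : x ∉ π1) (h2 : x ∉ π2) : eI τ x U (π1 ++ x :: π2) =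
      if isE τ (U ∪ π1.toFinset) x then gd τ (insert x (U ∪ π1.toFinset)) π2 else 0 := by
  unfold eI
  rw [psum_append]
  have e1 : psum (fun V y π => (fun U y π => if y = x ∧ isE τ U y then gd τ (insert y U) π
      else 0) V y (π ++ x :: π2)) U π1 = 0 := by
    refine (psum_congr_path _ (fun _ _ _ => 0) π1 U fun a y c hπ => ?_).trans (psum_zero π1 U)
    have : y ≠ x := by
      rintro rfl
      exact h1 (by rw [hπ]; simp)
    simp [this]
  rw [e1, zero_add]
  show (if x = x ∧ isE τ (U ∪ π1.toFinset) x then gd τ (insert x (U ∪ π1.toFinset)) π2 else 0) +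
    psum _ _ π2 = _
  have e2 : psum (fun U y π => if y = x ∧ isE τ U y then gd τ (insert y U) π
      else 0) (insert x (U ∪ π1.toFinset)) π2 = 0 := by
    refine (psum_congr_path _ (fun _ _ _ => 0) π2 _ fun a y c hπ => ?_).trans (psum_zero π2 _)
    have : y ≠ x := by
      rintro rfl
      exact h2 (by rw [hπ]; simp)
    simp [this]
  rw [e2, add_zero]
  simp

theorem sum_eI (τ : Finset α → Lab) (G : Finset α) (U : Finset α) (π : List α)
    (h : ∀ x ∈ π, x ∈ G) : ∑ x ∈ G, eI τ x U π = leI τ U π := by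
  unfold eI leI
  rw [← psum_sum]
  refine psum_congr_path _ _ π U fun a y c hπ => ?_
  have hy : y ∈ G := h y (by rw [hπ]; simp)
  rw [sum_eq_single y]
  · simp
  · intro z _ hz
    rw [if_neg]
    rintro ⟨rfl, -⟩
    exact hz rfl
  · intro h'; exact absurd hy h'

/-! ## The initial run -/

theorem arun_le (τ : Finset α → Lab) (π : List α) : ∀ U : Finset α, arun τ U π ≤ π.length := by
  induction π with
  | nil => intro U; exact le_refl _
  | cons y π ih =>
    intro U
    rw [arun_cons, List.length_cons]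
    split_ifs
    · exact Nat.succ_le_succ (ih _)
    · exact Nat.zero_le _

theorem arun_lt (τ : Finset α → Lab) (π : List α) : ∀ (U : Finset α) (d : ℕ), 1 ≤ d →
    d ≤ π.length → τ (U ∪ (π.take d).toFinset) ≠ Lab.A → arun τ U π + 1 ≤ d := by
  induction π with
  | nil => intro U d h1 h2 _; simp only [List.length_nil] at h2; omega
  | cons y π ih =>
    intro U d h1 h2 h3
    obtain ⟨e, rfl⟩ : ∃ e, d = e + 1 := ⟨d - 1, by omega⟩
    rw [arun_cons]
    split_ifs with h
    · rw [List.take_succ_cons] at h3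
      have e1 : U ∪ (y :: List.take e π).toFinset = insert y U ∪ (List.take e π).toFinset := by
        rw [List.toFinset_cons, insert_union, union_insert]
      rw [e1] at h3
      rcases Nat.eq_zero_or_pos e with he | he
      · subst he
        simp only [List.take_zero, List.toFinset_nil, union_empty] at h3
        exact absurd h h3
      · have := ih (insert y U) e he (by simpa using h2) h3
        omega
    · omega

theorem arun_append (τ : Finset α → Lab) (x : α) (π2 : List α) (π1 : List α) : ∀ U : Finset α,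
    τ (insert x (U ∪ π1.toFinset)) ≠ Lab.A → arun τ U (π1 ++ x :: π2) = arun τ U π1 := by
  induction π1 with
  | nil =>
    intro U h
    simp only [List.toFinset_nil, union_empty] at h
    show arun τ U (x :: π2) = arun τ U []
    rw [arun_cons, if_neg h]
    rfl
  | cons y π ih =>
    intro U h
    show arun τ U (y :: (π ++ x :: π2)) = _
    rw [arun_cons, arun_cons, ih]
    rwa [List.toFinset_cons, union_insert, ← insert_union] at h

/-! ## The track of one element -/

theorem insertIdx_eq (x : α) (w : List α) : ∀ i, i ≤ w.length →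
    w.insertIdx i x = w.take i ++ x :: w.drop i := by
  induction w with
  | nil =>
    intro i hi
    have : i = 0 := Nat.le_zero.1 hi
    subst this
    rfl
  | cons y w ih =>
    intro i hi
    cases i with
    | zero => rfl
    | succ i =>
      rw [List.insertIdx_succ_cons, ih i (by simpa using hi)]
      rfl

/-- The lower sets of the track. -/
def Pl (X : Finset α) (w : List α) (i : ℕ) : Finset α := X ∪ (w.take i).toFinset

theorem Pl_zero (X : Finset α) (w : List α) : Pl X w 0 = X := by
  unfold Pl; simp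

theorem Pl_top (X : Finset α) (w : List α) {i : ℕ} (h : w.length ≤ i) :
    Pl X w i = X ∪ w.toFinset := by
  unfold Pl; rw [List.take_of_length_le h]

theorem Pl_succ (X : Finset α) (w : List α) {i : ℕ} (h : i < w.length) :
    insert w[i] (Pl X w i) = Pl X w (i + 1) := by
  unfold Pl
  rw [← List.take_append_getElem h, List.toFinset_append]
  ext y
  simp only [mem_insert, mem_union, List.mem_toFinset, List.mem_singleton]
  tauto

theorem gd_track (τ : Finset α → Lab) (X : Finset α) (x : α) (w : List α) {i : ℕ}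
    (h : i < w.length) : gd τ (insert x (Pl X w i)) (w.drop i) =
      if τ (insert x (Pl X w i)) = Lab.B then gd τ (insert x (Pl X w (i + 1))) (w.drop (i + 1))
      else 0 := by
  rw [List.drop_eq_getElem_cons h, gd_cons, ← Pl_succ X w h, insert_comm]

theorem track_aux (τ : Finset α → Lab) (X : Finset α) (x : α) (w : List α) (b : ℕ)
    (hbw : b ≤ w.length) (hb : gd τ (insert x (Pl X w b)) (w.drop b) = 1)
    (hmin : ∀ j, j < b → gd τ (insert x (Pl X w j)) (w.drop j) ≠ 1) :
    ∃ c : ℝ, (c = 0 ∨ c = 1) ∧ ∀ i, i < b →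
      ((w.length : ℝ) - b) + c ≤ qI τ x X (w.take i ++ x :: w.drop i) ∧
      1 - c ≤ leI τ X (w.take i ++ x :: w.drop i) := by
  rcases Nat.eq_zero_or_pos b with h0 | hpos
  · exact ⟨0, Or.inl rfl, fun i hi => by omega⟩
  obtain ⟨d, rfl⟩ : ∃ d, b = d + 1 := ⟨b - 1, by omega⟩
  have hd : d < w.length := by omega
  have hQ : τ (insert x (Pl X w d)) ≠ Lab.B := by
    intro h
    apply hmin d (Nat.lt_succ_self d)
    rw [gd_track τ X x w hd, if_pos h, hb]
  have hL : ∀ i, i < d + 1 → w.take i ++ x :: w.drop i =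
      (w.take i ++ x :: (w.take d).drop i) ++ w[d] :: w.drop (d + 1) := by
    intro i hi
    have h1 : w.drop i = (w.take d).drop i ++ w[d] :: w.drop (d + 1) := by
      rw [← List.drop_eq_getElem_cons hd]
      rw [← List.drop_append_of_le_length (by rw [List.length_take]; omega), List.take_append_drop]
    rw [List.append_assoc, List.cons_append, ← h1]
  have hU : ∀ i, i < d + 1 → X ∪ (w.take i ++ x :: (w.take d).drop i).toFinset =
      insert x (Pl X w d) := by
    intro i hi
    have h1 : w.take d = w.take i ++ (w.take d).drop i := by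
      conv_lhs => rw [← List.take_append_drop i (w.take d), List.take_take, min_eq_left (by omega)]
    unfold Pl
    conv_rhs => rw [h1]
    rw [List.toFinset_append, List.toFinset_append, List.toFinset_cons]
    ext y
    simp only [mem_insert, mem_union]
    tauto
  have hins : insert w[d] (insert x (Pl X w d)) = insert x (Pl X w (d + 1)) := by
    rw [insert_comm, Pl_succ X w hd]
  have hlen : ((w.drop (d + 1)).length : ℝ) = (w.length : ℝ) - (d + 1) := by
    rw [List.length_drop]
    push_cast [Nat.cast_sub hbw]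
    ring
  have hmem : x ∈ insert x (Pl X w d) := mem_insert_self _ _
  have hBl : τ (insert x (Pl X w (d + 1))) = Lab.B := gd_one_lab hb
  have hq : ∀ i, i < d + 1 → qs τ x (insert x (Pl X w d)) w[d] (w.drop (d + 1)) ≤
      qI τ x X (w.take i ++ x :: w.drop i) := by
    intro i hi
    have := psum_ge (qs_nonneg τ x) X (w.take i ++ x :: (w.take d).drop i) w[d] (w.drop (d + 1))
    rw [hU i hi, ← hL i hi] at this
    exact this
  rcases hl : τ (insert x (Pl X w d)) with _ | _ | _
  · refine ⟨0, Or.inl rfl, fun i hi => ⟨?_, ?_⟩⟩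
    · refine le_trans ?_ (hq i hi)
      unfold qs
      rw [hins, hb, if_pos ⟨⟨hl, by rw [hins]; exact hBl⟩, mem_insert_self _ _⟩,
        if_neg (by rw [hl]; simp), hlen]
      push_cast
      linarith
    · rw [sub_zero, hL i hi]
      refine leI_ge τ X _ _ _ ?_ ?_
      · rw [hU i hi]
        exact ⟨hl, by rw [hins]; exact hBl⟩
      · rw [hU i hi, hins, hb]
  · exact absurd hl hQ
  · refine ⟨1, Or.inr rfl, fun i hi => ⟨?_, ?_⟩⟩
    · refine le_trans ?_ (hq i hi)
      unfold qs
      rw [hins, hb, if_neg (by rintro ⟨⟨h, -⟩, -⟩; rw [hl] at h; exact absurd h (by decide)),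
        if_pos ⟨hl, hmem⟩, hlen]
      push_cast
      linarith
    · rw [sub_self]
      exact leI_nonneg _ _ _

theorem sum_low (g f : ℕ → ℝ) (c : ℝ) (b n : ℕ) (hbn : b ≤ n) (p : ℕ → Prop) [DecidablePred p]
    (h1 : ∀ i ∈ (Ico b n).filter p, f i ≤ g i) (h2 : ∀ i, i < b → c ≤ g i) (h3 : ∀ i, 0 ≤ g i) :
    ∑ i ∈ (Ico b n).filter p, f i + (b : ℝ) * c ≤ ∑ i ∈ range n, g i := by
  have hd : Disjoint ((Ico b n).filter p) (range b) := by
    rw [Finset.disjoint_left]
    intro i hi hi'
    rw [mem_filter, mem_Ico] at hi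
    rw [mem_range] at hi'
    omega
  have hs : (Ico b n).filter p ∪ range b ⊆ range n := by
    intro i hi
    rw [mem_union, mem_filter, mem_Ico, mem_range] at hi
    rw [mem_range]
    omega
  have h4 : ∑ i ∈ range b, c ≤ ∑ i ∈ range b, g i :=
    sum_le_sum fun i hi => h2 i (mem_range.1 hi)
  rw [sum_const, card_range, nsmul_eq_mul] at h4
  calc _ ≤ ∑ i ∈ (Ico b n).filter p, g i + ∑ i ∈ range b, g i := add_le_add (sum_le_sum h1) h4
    _ = ∑ i ∈ (Ico b n).filter p ∪ range b, g i := (sum_union hd).symm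
    _ ≤ _ := sum_le_sum_of_subset_of_nonneg hs fun i _ _ => h3 i

theorem sum_sel (f : ℕ → ℝ) (b n : ℕ) (p : ℕ → Prop) [DecidablePred p] :
    ∑ i ∈ range n, (if b ≤ i ∧ p i then f i else 0) = ∑ i ∈ (Ico b n).filter p, f i := by
  rw [← sum_filter]
  refine sum_congr ?_ fun _ _ => rfl
  ext i
  simp only [mem_filter, mem_range, mem_Ico]
  tauto

theorem track (τ : Finset α → Lab) (X : Finset α) (x : α) (w : List α) (hxw : x ∉ w)
    (hA : τ X = Lab.A) (hB : τ (insert x (X ∪ w.toFinset)) = Lab.B) :
    (τ (X ∪ w.toFinset) ≠ Lab.A →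
      ∑ i ∈ range (w.length + 1), eI τ x X (w.insertIdx i x) *
          ((arun τ X (w.insertIdx i x) : ℝ) + 1) ≤
        (w.length : ℝ) * ∑ i ∈ range (w.length + 1), eI τ x X (w.insertIdx i x) ∧
      ∑ i ∈ range (w.length + 1), eI τ x X (w.insertIdx i x) *
          ((arun τ X (w.insertIdx i x) : ℝ) + 1) ≤
        ∑ i ∈ range (w.length + 1), qI τ x X (w.insertIdx i x)) ∧
    (∑ i ∈ range (w.length + 1), eI τ x X (w.insertIdx i x) *
          ((arun τ X (w.insertIdx i x) : ℝ) + 1) -
        ∑ i ∈ range (w.length + 1), leI τ X (w.insertIdx i x) ≤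
        (w.length : ℝ) * ∑ i ∈ range (w.length + 1), eI τ x X (w.insertIdx i x) ∧
      ∑ i ∈ range (w.length + 1), eI τ x X (w.insertIdx i x) *
          ((arun τ X (w.insertIdx i x) : ℝ) + 1) -
        ∑ i ∈ range (w.length + 1), leI τ X (w.insertIdx i x) ≤
        ∑ i ∈ range (w.length + 1), qI τ x X (w.insertIdx i x)) := by
  classical
  obtain ⟨m, hm⟩ : ∃ m, w.length = m := ⟨_, rfl⟩
  have htop : gd τ (insert x (Pl X w m)) (w.drop m) = 1 := by
    rw [Pl_top X w hm.le, List.drop_of_length_le hm.le]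
    exact if_pos hB
  have hex : ∃ i, gd τ (insert x (Pl X w i)) (w.drop i) = 1 := ⟨m, htop⟩
  obtain ⟨b, hb, hmin⟩ : ∃ b, gd τ (insert x (Pl X w b)) (w.drop b) = 1 ∧
      ∀ j, j < b → gd τ (insert x (Pl X w j)) (w.drop j) ≠ 1 :=
    ⟨Nat.find hex, Nat.find_spec hex, fun j hj => Nat.find_min hex hj⟩
  have hbm : b ≤ m := by
    by_contra h
    exact hmin m (by omega) htop
  have hup : ∀ i, b ≤ i → i ≤ m → gd τ (insert x (Pl X w i)) (w.drop i) = 1 := by
    intro i hi
    induction i, hi using Nat.le_induction with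
    | base => intro _; exact hb
    | succ i hi ih =>
      intro him
      have h1 := ih (by omega)
      have h2 := gd_one_lab h1
      rw [gd_track τ X x w (by omega), if_pos h2] at h1
      exact h1
  obtain ⟨c, hc, hlow⟩ := track_aux τ X x w b (by omega) hb hmin
  obtain ⟨p, hp⟩ : ∃ p : ℕ → Prop, ∀ i, p i ↔ τ (Pl X w i) = Lab.A := ⟨_, fun _ => Iff.rfl⟩
  obtain ⟨a, haa⟩ : ∃ a : ℕ → ℤ, ∀ i, a i = (arun τ X (w.take i) : ℤ) := ⟨_, fun _ => rfl⟩
  have h0 : p 0 := by rw [hp, Pl_zero]; exact hA
  have ha : ∀ i, a i ≤ i := by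
    intro i
    rw [haa]
    have := arun_le τ (w.take i) X
    rw [List.length_take] at this
    have h2 := min_le_left i w.length
    exact_mod_cast this.trans h2
  have ha2 : ∀ i d, ¬ p d → d < i → a i ≤ d - 1 := by
    intro i d hpd hdi
    have hd1 : 1 ≤ d := by
      rcases Nat.eq_zero_or_pos d with h | h
      · rw [h] at hpd; exact absurd h0 hpd
      · exact h
    rw [haa]
    by_cases hdm : d ≤ m
    · have := arun_lt τ (w.take i) X d hd1 (by rw [List.length_take]; omega) (by
        rw [List.take_take, min_eq_left hdi.le]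
        exact fun h => hpd ((hp d).2 h))
      omega
    · have := arun_le τ (w.take i) X
      rw [List.length_take] at this
      have h2 := min_le_right i w.length
      omega
  have hmem : ∀ i, x ∉ w.take i ∧ x ∉ w.drop i := fun i =>
    ⟨fun h => hxw (List.mem_of_mem_take h), fun h => hxw (List.mem_of_mem_drop h)⟩
  have he : ∀ i, i ≤ m → eI τ x X (w.insertIdx i x) = if b ≤ i ∧ p i then 1 else 0 := by
    intro i him
    rw [insertIdx_eq x w i (by omega), eI_insert τ x X _ _ (hmem i).1 (hmem i).2]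
    show (if isE τ (Pl X w i) x then gd τ (insert x (Pl X w i)) (w.drop i) else 0) = _
    by_cases hbi : b ≤ i
    · have h1 := hup i hbi him
      by_cases hpi : p i
      · rw [if_pos ⟨(hp i).1 hpi, gd_one_lab h1⟩, if_pos ⟨hbi, hpi⟩, h1]
      · rw [if_neg (fun h => hpi ((hp i).2 h.1)), if_neg (fun h => hpi h.2)]
    · rw [if_neg (fun h : b ≤ i ∧ p i => hbi h.1)]
      have h1 : gd τ (insert x (Pl X w i)) (w.drop i) = 0 := by
        rcases gd_cases τ (w.drop i) (insert x (Pl X w i)) with h | h
        · exact h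
        · exact absurd h (hmin i (by omega))
      rw [h1, ite_self]
  have hr : ∀ i, i ≤ m → eI τ x X (w.insertIdx i x) * ((arun τ X (w.insertIdx i x) : ℝ) + 1) =
      if b ≤ i ∧ p i then ((a i : ℝ) + 1) else 0 := by
    intro i him
    rw [he i him]
    split_ifs with h
    · have h1 := gd_one_lab (hup i h.1 him)
      have h2 : arun τ X (w.insertIdx i x) = arun τ X (w.take i) := by
        rw [insertIdx_eq x w i (by omega)]
        refine arun_append τ x _ _ X ?_
        have : τ (insert x (X ∪ (w.take i).toFinset)) = Lab.B := h1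
        rw [this]
        decide
      rw [h2, haa i]
      push_cast
      ring
    · rw [zero_mul]
  have hl : ∀ i, i ≤ m → b ≤ i → p i → 1 ≤ leI τ X (w.insertIdx i x) := by
    intro i him hbi hpi
    rw [insertIdx_eq x w i (by omega)]
    have h1 := hup i hbi him
    exact leI_ge τ X _ _ _ ⟨(hp i).1 hpi, gd_one_lab h1⟩ h1
  have hq : ∀ i, i ≤ m → b ≤ i → p i → (m : ℝ) - i ≤ qI τ x X (w.insertIdx i x) := by
    intro i him hbi hpi
    rw [insertIdx_eq x w i (by omega)]
    have h1 := hup i hbi him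
    refine le_trans ?_ (psum_ge (qs_nonneg τ x) X (w.take i) x (w.drop i))
    show _ ≤ qs τ x (Pl X w i) x (w.drop i)
    unfold qs
    rw [if_pos ⟨⟨(hp i).1 hpi, gd_one_lab h1⟩, mem_insert_self _ _⟩, h1, List.length_drop, hm,
      if_neg]
    · push_cast [Nat.cast_sub him]
      linarith
    · rintro ⟨h, -⟩
      rw [(hp i).1 hpi] at h
      exact absurd h (by decide)
  have hS : ∀ i ∈ (Ico b (m + 1)).filter p, i ≤ m ∧ b ≤ i ∧ p i := by
    intro i hi
    rw [mem_filter, mem_Ico] at hi
    exact ⟨by omega, hi.1.1, hi.2⟩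
  have eR : ∑ i ∈ range (m + 1), eI τ x X (w.insertIdx i x) *
      ((arun τ X (w.insertIdx i x) : ℝ) + 1) = ∑ i ∈ (Ico b (m + 1)).filter p, ((a i : ℝ) + 1) := by
    rw [← sum_sel (fun i => (a i : ℝ) + 1)]
    refine sum_congr rfl fun i hi => hr i ?_
    rw [mem_range] at hi; omega
  have eT : ∑ i ∈ range (m + 1), eI τ x X (w.insertIdx i x) =
      ∑ i ∈ (Ico b (m + 1)).filter p, (1 : ℝ) := by
    rw [← sum_sel (fun i => (1 : ℝ))]
    refine sum_congr rfl fun i hi => he i ?_
    rw [mem_range] at hi; omega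
  have eL : ∑ i ∈ (Ico b (m + 1)).filter p, (1 : ℝ) + (b : ℝ) * (1 - c) ≤
      ∑ i ∈ range (m + 1), leI τ X (w.insertIdx i x) := by
    refine sum_low _ _ _ b (m + 1) (by omega) p (fun i hi => ?_) (fun i hi => ?_)
      (fun i => leI_nonneg _ _ _)
    · obtain ⟨h1, h2, h3⟩ := hS i hi
      exact hl i h1 h2 h3
    · rw [insertIdx_eq x w i (by omega)]
      exact (hlow i hi).2
  have eQ : ∑ i ∈ (Ico b (m + 1)).filter p, ((m : ℝ) - i) + (b : ℝ) * (((m : ℝ) - b) + c) ≤
      ∑ i ∈ range (m + 1), qI τ x X (w.insertIdx i x) := by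
    refine sum_low _ _ _ b (m + 1) (by omega) p (fun i hi => ?_) (fun i hi => ?_)
      (fun i => psum_nonneg (qs_nonneg τ x) _ _)
    · obtain ⟨h1, h2, h3⟩ := hS i hi
      exact hq i h1 h2 h3
    · rw [insertIdx_eq x w i (by omega), ← hm]
      exact (hlow i hi).1
  have hc0 : 0 ≤ c := by rcases hc with rfl | rfl <;> norm_num
  have hbc : 0 ≤ (b : ℝ) * c := mul_nonneg (Nat.cast_nonneg _) hc0
  rw [hm]
  refine ⟨fun hna => ⟨?_, ?_⟩, ?_, ?_⟩
  · rw [eR, eT, mul_sum]
    refine sum_le_sum fun i hi => ?_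
    obtain ⟨h1, h2, h3⟩ := hS i hi
    have h4 : i < m := by
      rcases h1.lt_or_eq with h | h
      · exact h
      · exfalso
        rw [h, hp, Pl_top X w hm.le] at h3
        exact hna h3
    have h5 := ha i
    have h6 : a i + 1 ≤ (m : ℤ) := by omega
    rw [mul_one]
    exact_mod_cast h6
  · have hw := word_one (m + 1) b p a (by omega) h0 ha ha2 (by
      rw [hp, Nat.add_sub_cancel, Pl_top X w hm.le]; exact hna)
    have hw' := (Int.cast_le (R := ℝ)).2 hw
    push_cast at hw'
    rw [eR]
    refine le_trans ?_ eQ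
    have e1 : ∑ i ∈ (Ico b (m + 1)).filter p, ((m : ℝ) + 1 - 1 - i) =
        ∑ i ∈ (Ico b (m + 1)).filter p, ((m : ℝ) - i) := sum_congr rfl fun i _ => by ring
    rw [e1] at hw'
    linarith
  · rw [eR, eT, mul_sum]
    have h1 : ∑ i ∈ (Ico b (m + 1)).filter p, ((a i : ℝ) + 1) -
        ∑ i ∈ (Ico b (m + 1)).filter p, (1 : ℝ) ≤ ∑ i ∈ (Ico b (m + 1)).filter p, (m : ℝ) * 1 := by
      rw [← sum_sub_distrib]
      refine sum_le_sum fun i hi => ?_
      obtain ⟨h1, h2, h3⟩ := hS i hi
      have h5 := ha i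
      have h6 : a i ≤ (m : ℤ) := by omega
      rw [mul_one, add_sub_cancel_right]
      exact_mod_cast h6
    have h2 : 0 ≤ (b : ℝ) * (1 - c) :=
      mul_nonneg (Nat.cast_nonneg _) (by rcases hc with rfl | rfl <;> norm_num)
    linarith
  · have hw := word_two (m + 1) b p a (by omega) h0 ha ha2
    have hw' := (Int.cast_le (R := ℝ)).2 hw
    push_cast at hw'
    rw [eR]
    have e1 : ∑ i ∈ (Ico b (m + 1)).filter p, ((m : ℝ) + 1 - 1 - i) =
        ∑ i ∈ (Ico b (m + 1)).filter p, ((m : ℝ) - i) := sum_congr rfl fun i _ => by ring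
    rw [e1] at hw'
    have e2 : ∑ i ∈ (Ico b (m + 1)).filter p, ((a i : ℝ) + 1) =
        ∑ i ∈ (Ico b (m + 1)).filter p, (a i : ℝ) + ∑ i ∈ (Ico b (m + 1)).filter p, (1 : ℝ) :=
      sum_add_distrib
    rw [e2]
    have h3 : (b : ℝ) * (1 - c) + (b : ℝ) * c = b := by ring
    have h4 : (b : ℝ) * ((m : ℝ) + 1 - b) = (b : ℝ) * (m - b) + b := by ring
    have h5 : (b : ℝ) * (((m : ℝ) - b) + c) = (b : ℝ) * (m - b) + b * c := by ring
    linarith

end R5
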