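import Pool.Agent.Work.MP_8b6acb_ti_helper32.S0

/-!
# (S0'): assembly
-/

namespace R5

open Finset

variable {α : Type} [DecidableEq α]

theorem kap_super {N : ℝ} (hN0 : 0 < N) (ρ : α → ℝ) (Z : Finset α) : (∀ x ∈ Z, 0 ≤ ρ x) →
    (∑ x ∈ Z, ρ x) < N →
    ∑ x ∈ Z, -Real.log (1 - ρ x / N) ≤ -Real.log (1 - (∑ x ∈ Z, ρ x) / N) := by
  induction Z using Finset.induction_on with
  | empty => intro _ _; simp
  | insert a Z ha ih =>
    intro h0 h1
    rw [sum_insert ha] at h1 ⊢
    rw [sum_insert ha]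
    have ha0 : 0 ≤ ρ a := h0 a (mem_insert_self _ _)
    have hZ0 : ∀ x ∈ Z, 0 ≤ ρ x := fun x hx => h0 x (mem_insert_of_mem hx)
    have hs0 : 0 ≤ ∑ x ∈ Z, ρ x := sum_nonneg hZ0
    have h2 := ih hZ0 (by linarith)
    obtain ⟨s, hs⟩ : ∃ s, ∑ x ∈ Z, ρ x = s := ⟨_, rfl⟩
    rw [hs] at h1 h2 hs0 ⊢
    have e1 : 0 < 1 - ρ a / N := by
      rw [sub_pos, div_lt_one hN0]; linarith
    have e2 : 0 < 1 - s / N := by
      rw [sub_pos, div_lt_one hN0]; linarith
    have e3 : 0 < 1 - (ρ a + s) / N := by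
      rw [sub_pos, div_lt_one hN0]; linarith
    have e4 : Real.log (1 - (ρ a + s) / N) ≤ Real.log (1 - ρ a / N) + Real.log (1 - s / N) := by
      rw [← Real.log_mul e1.ne' e2.ne']
      refine Real.log_le_log e3 ?_
      have : 0 ≤ ρ a / N * (s / N) := by positivity
      have e5 : (ρ a + s) / N = ρ a / N + s / N := add_div _ _ _
      rw [e5]
      nlinarith
    linarith

theorem sum_lt_card {G Z : Finset α} (hZ : Z ⊆ G) {y : α} (hy : y ∈ G) (hyZ : y ∉ Z)
    {ρ : α → ℝ} (h1 : ∀ x ∈ G, ρ x ≤ 1) {N : ℕ} (hN : G.card ≤ N) :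
    ∑ x ∈ Z, ρ x < (N : ℝ) := by
  have h2 : ∑ x ∈ Z, ρ x ≤ (Z.card : ℝ) := by
    have := sum_le_sum (fun x hx => h1 x (hZ hx) : ∀ x ∈ Z, ρ x ≤ 1)
    simpa using this
  have h3 : Z.card < G.card := card_lt_card
    (Finset.ssubset_iff_subset_ne.2 ⟨hZ, fun h => hyZ (h ▸ hy)⟩)
  have h4 : (Z.card : ℝ) < N := by exact_mod_cast lt_of_lt_of_le h3 hN
  linarith

theorem lamn_nonneg (N : ℕ) : 0 ≤ lamn N := by
  unfold lamn
  rcases Nat.lt_or_ge 1 N with h | h
  · have h2 : (2 : ℝ) ≤ N := by exact_mod_cast h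
    refine Real.log_nonneg ?_
    rw [le_div_iff₀ (by linarith)]
    linarith
  · interval_cases N <;> simp

theorem sdiff_card_pos {D X : Finset α} {τ : Finset α → Lab} (hX : X ⊆ D) (hA : τ X = Lab.A)
    (hB : τ D = Lab.B) : ∃ m, (D \ X).card = m + 1 := by
  refine Nat.exists_eq_succ_of_ne_zero fun h => ?_
  rw [card_eq_zero, sdiff_eq_empty_iff_subset] at h
  have : X = D := Subset.antisymm hX h
  rw [this, hB] at hA
  exact absurd hA (by decide)

/-- The elementwise lower bound. -/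
theorem phiM_ge (τ : Finset α → Lab) (D X : Finset α) (hX : X ⊆ D)
    (ρ : α → ℝ) (h0 : ∀ x ∈ D \ X, 0 ≤ ρ x) (h1 : ∀ x ∈ D \ X, ρ x ≤ 1) (N : ℕ)
    (hN : (D \ X).card ≤ N) (hN1 : 1 ≤ N) (π : List α) (hπ : π ∈ seqs (D \ X).card (D \ X)) :
    ∑ x ∈ D \ X, (eI τ x X π * (-Real.log (ρ x)) + qI τ x X π * (-Real.log (1 - ρ x / (N : ℝ)))) ≤
      psum (phiM τ ρ N X) X π := by
  obtain ⟨hnd, hlen, hmem⟩ := mem_seqs.1 hπ
  have e1 : ∑ x ∈ D \ X, (eI τ x X π * (-Real.log (ρ x)) +
      qI τ x X π * (-Real.log (1 - ρ x / (N : ℝ)))) =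
      psum (fun U y π => ∑ x ∈ D \ X, ((-Real.log (ρ x)) *
        (if y = x ∧ isE τ U y then gd τ (insert y U) π else 0) +
        (-Real.log (1 - ρ x / (N : ℝ))) * qs τ x U y π)) X π := by
    rw [psum_sum (D \ X) (fun x U y π => (-Real.log (ρ x)) *
        (if y = x ∧ isE τ U y then gd τ (insert y U) π else 0) +
        (-Real.log (1 - ρ x / (N : ℝ))) * qs τ x U y π)]
    refine sum_congr rfl fun x _ => ?_
    rw [psum_add, psum_mul, psum_mul]
    unfold eI qI
    ring
  rw [e1]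
  refine psum_mono_path _ _ π X fun π1 y π2 hd => ?_
  obtain ⟨U, hU⟩ : ∃ U, X ∪ π1.toFinset = U := ⟨_, rfl⟩
  rw [hU]
  have hyG : y ∈ D \ X := hmem y (by rw [hd]; simp)
  have hlen2 : π1.length + (π2.length + 1) = (D \ X).card := by
    rw [← hlen, hd]; simp
  have hUD : U ⊆ D := by
    rw [← hU]
    refine union_subset hX fun z hz => ?_
    have : z ∈ π := by rw [hd]; exact List.mem_append_left _ (List.mem_toFinset.1 hz)
    exact (mem_sdiff.1 (hmem z this)).1
  have hXU : X ⊆ U := by rw [← hU]; exact subset_union_left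
  -- superadditivity on a set of elements
  have hsup : ∀ Z : Finset α, Z ⊆ D \ X → (∃ z ∈ D \ X, z ∉ Z) →
      ∑ x ∈ Z, -Real.log (1 - ρ x / (N : ℝ)) ≤ -Real.log (1 - (∑ x ∈ Z, ρ x) / (N : ℝ)) := by
    intro Z hZ h2
    obtain ⟨z, hz, hzZ⟩ := h2
    exact kap_super (by exact_mod_cast hN1) ρ Z (fun x hx => h0 x (hZ hx))
      (sum_lt_card hZ hz hzZ h1 hN)
  have hnd2 : π1.Nodup ∧ y ∉ π1 ∧ y ∉ π2 ∧ ∀ z ∈ π2, z ∉ π1 := by
    rw [hd, List.nodup_append] at hnd
    obtain ⟨n1, n2, n3⟩ := hnd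
    rw [List.nodup_cons] at n2
    exact ⟨n1, fun h => n3 y h y (by simp) rfl, n2.1, fun z hz h => n3 z h z (by simp [hz]) rfl⟩
  rw [sum_add_distrib]
  have s1 : ∑ x ∈ D \ X, (-Real.log (ρ x)) *
      (if y = x ∧ isE τ U y then gd τ (insert y U) π2 else 0) =
      if isE τ U y then gd τ (insert y U) π2 * (-Real.log (ρ y)) else 0 := by
    rw [sum_eq_single y]
    · by_cases hE : isE τ U y
      · rw [if_pos ⟨rfl, hE⟩, if_pos hE, mul_comm]
      · rw [if_neg (fun h => hE h.2), if_neg hE, mul_zero]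
    · intro z _ hz
      rw [if_neg, mul_zero]
      rintro ⟨rfl, -⟩
      exact hz rfl
    · intro h; exact absurd hyG h
  have s2 : ∑ x ∈ D \ X, (-Real.log (1 - ρ x / (N : ℝ))) * qs τ x U y π2 =
      (if isE τ U y then gd τ (insert y U) π2 * ((π2.length : ℝ) *
        ∑ x ∈ insert y U \ X, -Real.log (1 - ρ x / (N : ℝ))) else 0) +
      (if τ U = Lab.X then gd τ (insert y U) π2 * (((π2.length : ℝ) + 1) *
        ∑ x ∈ U \ X, -Real.log (1 - ρ x / (N : ℝ))) else 0) := by
    have e2 : ∀ x ∈ D \ X, (-Real.log (1 - ρ x / (N : ℝ))) * qs τ x U y π2 =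
        (-Real.log (1 - ρ x / (N : ℝ))) *
          (if isE τ U y ∧ x ∈ insert y U then gd τ (insert y U) π2 * (π2.length : ℝ) else 0) +
        (-Real.log (1 - ρ x / (N : ℝ))) *
          (if τ U = Lab.X ∧ x ∈ U then gd τ (insert y U) π2 * ((π2.length : ℝ) + 1) else 0) :=
      fun x _ => mul_add _ _ _
    rw [sum_congr rfl e2, sum_add_distrib]
    congr 1
    · by_cases hE : isE τ U y
      · rw [if_pos hE, mul_sum, mul_sum]
        rw [← sum_filter_add_sum_filter_not (D \ X) (fun x => x ∈ insert y U)]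
        have z1 : ∑ x ∈ (D \ X).filter (fun x => ¬ x ∈ insert y U),
            (-Real.log (1 - ρ x / (N : ℝ))) *
            (if isE τ U y ∧ x ∈ insert y U then gd τ (insert y U) π2 * (π2.length : ℝ) else 0) =
            0 := by
          refine sum_eq_zero fun x hx => ?_
          rw [if_neg (fun h => (mem_filter.1 hx).2 h.2), mul_zero]
        rw [z1, add_zero]
        refine sum_congr ?_ fun x hx => ?_
        · ext x
          simp only [mem_filter, mem_sdiff]
          constructor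
          · rintro ⟨⟨h1, h2⟩, h3⟩; exact ⟨h3, h2⟩
          · rintro ⟨h3, h2⟩
            exact ⟨⟨(insert_subset (mem_sdiff.1 hyG).1 hUD) h3, h2⟩, h3⟩
        · rw [if_pos ⟨hE, (mem_sdiff.1 hx).1⟩]
          ring
      · rw [if_neg hE]
        refine sum_eq_zero fun x hx => ?_
        rw [if_neg (fun h => hE h.1), mul_zero]
    · by_cases hE : τ U = Lab.X
      · rw [if_pos hE, mul_sum, mul_sum]
        rw [← sum_filter_add_sum_filter_not (D \ X) (fun x => x ∈ U)]
        have z1 : ∑ x ∈ (D \ X).filter (fun x => ¬ x ∈ U),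
            (-Real.log (1 - ρ x / (N : ℝ))) *
            (if τ U = Lab.X ∧ x ∈ U then gd τ (insert y U) π2 * ((π2.length : ℝ) + 1) else 0) =
            0 := by
          refine sum_eq_zero fun x hx => ?_
          rw [if_neg (fun h => (mem_filter.1 hx).2 h.2), mul_zero]
        rw [z1, add_zero]
        refine sum_congr ?_ fun x hx => ?_
        · ext x
          simp only [mem_filter, mem_sdiff]
          constructor
          · rintro ⟨⟨h1, h2⟩, h3⟩; exact ⟨h3, h2⟩
          · rintro ⟨h3, h2⟩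
            exact ⟨⟨hUD h3, h2⟩, h3⟩
        · rw [if_pos ⟨hE, (mem_sdiff.1 hx).1⟩]
          ring
      · rw [if_neg hE]
        refine sum_eq_zero fun x hx => ?_
        rw [if_neg (fun h => hE h.1), mul_zero]
  rw [s1, s2]
  unfold phiM
  have hg := gd_nonneg τ (insert y U) π2
  have hins : insert y U \ X ⊆ D \ X :=
    sdiff_subset_sdiff (insert_subset (mem_sdiff.1 hyG).1 hUD) (Subset.refl _)
  have a1 : (if isE τ U y then gd τ (insert y U) π2 * (-Real.log (ρ y)) else 0) +
      (if isE τ U y then gd τ (insert y U) π2 * ((π2.length : ℝ) *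
        ∑ x ∈ insert y U \ X, -Real.log (1 - ρ x / (N : ℝ))) else 0) ≤
      (if isE τ U y then gd τ (insert y U) π2 * (-Real.log (ρ y) +
      (π2.length : ℝ) * -Real.log (1 - (∑ g ∈ insert y U \ X, ρ g) / N)) else 0) := by
    split_ifs with hE
    · rw [← mul_add]
      refine mul_le_mul_of_nonneg_left ?_ hg
      refine add_le_add (le_refl _) ?_
      cases π2 with
      | nil => simp
      | cons z π2 =>
        refine mul_le_mul_of_nonneg_left (hsup _ hins ⟨z, hmem z (by rw [hd]; simp), ?_⟩)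
          (Nat.cast_nonneg _)
        rw [mem_sdiff, not_and, not_not, mem_insert, ← hU, mem_union, List.mem_toFinset]
        rintro (rfl | h | h)
        · exact absurd (by simp) hnd2.2.2.1
        · exact h
        · exact absurd h (hnd2.2.2.2 z (by simp))
    · simp
  have a2 : (if τ U = Lab.X then gd τ (insert y U) π2 * (((π2.length : ℝ) + 1) *
        ∑ x ∈ U \ X, -Real.log (1 - ρ x / (N : ℝ))) else 0) ≤
      (if τ U = Lab.X then gd τ (insert y U) π2 * (((π2.length : ℝ) + 1) *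
      -Real.log (1 - (∑ g ∈ U \ X, ρ g) / N)) else 0) := by
    split_ifs with hE
    · refine mul_le_mul_of_nonneg_left ?_ hg
      refine mul_le_mul_of_nonneg_left (hsup _ (sdiff_subset_sdiff hUD (Subset.refl _))
        ⟨y, hyG, ?_⟩) (by positivity)
      rw [mem_sdiff, not_and, not_not, ← hU, mem_union, List.mem_toFinset]
      rintro (h | h)
      · exact h
      · exact absurd h hnd2.2.1
    · exact le_refl _
  linarith

theorem Eo_ins {G : Finset α} {x : α} (hx : x ∈ G) {m : ℕ} (hG : G.card = m + 1)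
    (F : List α → ℝ) : Eo G F =
      Eo (G.erase x) (fun w => ∑ i ∈ range (w.length + 1), F (w.insertIdx i x)) / ((m : ℝ) + 1) := by
  rw [Eo_insert m G F x hx hG, ← Eo_sum]
  congr 1
  refine Eo_congr fun w hw => ?_
  have : w.length = m := by
    rw [(mem_seqs.1 hw).2.1, card_erase_of_mem hx, hG]; rfl
  rw [this]

/-- (S0'): lower bound for the value of a state. -/
theorem S0 (τ : Finset α → Lab) (D X : Finset α) (hX : X ⊆ D) (hA : τ X = Lab.A)
    (hB : τ D = Lab.B) (ρ : α → ℝ) (h0 : ∀ x ∈ D \ X, 0 < ρ x) (h1 : ∀ x ∈ D \ X, ρ x ≤ 1)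
    (N : ℕ) (hN : (D \ X).card ≤ N) :
    lamn N * (Eo (D \ X) (fun π => leI τ X π * (arun τ X π : ℝ)) +
      (1 - (((D \ X).filter (fun x => τ (D.erase x) = Lab.A)).card : ℝ)) * Eo (D \ X) (leI τ X)) ≤
      Eo (D \ X) (psum (phiM τ ρ N X) X) := by
  obtain ⟨m, hm⟩ := sdiff_card_pos hX hA hB
  obtain ⟨G, hG⟩ : ∃ G, D \ X = G := ⟨_, rfl⟩
  have hN1 : 1 ≤ N := by omega
  have hphi := fun π hπ => phiM_ge τ D X hX ρ (fun x hx => (h0 x hx).le) h1 N hN hN1 π hπ
  have hP : Eo (D \ X) (fun π => ∑ x ∈ D \ X, (eI τ x X π * (-Real.log (ρ x)) +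
      qI τ x X π * (-Real.log (1 - ρ x / (N : ℝ))))) ≤ Eo (D \ X) (psum (phiM τ ρ N X) X) :=
    Eo_mono hphi
  refine le_trans ?_ hP
  rw [Eo_sum]
  -- the shares
  have hsh : ∀ x ∈ D \ X,
      lamn N * (Eo (D \ X) (fun π => eI τ x X π * ((arun τ X π : ℝ) + 1)) -
        (if τ (D.erase x) = Lab.A then Eo (D \ X) (leI τ X) else 0)) ≤
      Eo (D \ X) (fun π => eI τ x X π * (-Real.log (ρ x)) +
        qI τ x X π * (-Real.log (1 - ρ x / (N : ℝ)))) := by
    intro x hx
    have hxD := (mem_sdiff.1 hx).1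
    have hxX := (mem_sdiff.1 hx).2
    rw [Eo_add, Eo_mul_right, Eo_mul_right]
    have hp0 : 0 ≤ Eo (D \ X) (eI τ x X) := Eo_nonneg fun π _ => by
      refine psum_nonneg (fun V y π => ?_) π X
      have := gd_nonneg τ (insert y V) π
      split_ifs
      · exact this
      · exact le_refl _
    have hq0 : 0 ≤ Eo (D \ X) (qI τ x X) := Eo_nonneg fun π _ =>
      psum_nonneg (qs_nonneg τ x) π X
    have hρ1 : ρ x ≤ 1 := h1 x hx
    have hINF := stmt_INF N (Eo (D \ X) (eI τ x X)) (Eo (D \ X) (qI τ x X)) (ρ x) hN1 hp0 hq0 (by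
      intro hN1'
      rw [← Eo_zero (D \ X)]
      refine Eo_congr fun π hπ => ?_
      have hl : π.length = 1 := by
        rw [(mem_seqs.1 hπ).2.1]; omega
      obtain ⟨y, rfl⟩ := List.length_eq_one_iff.1 hl
      show qs τ x X y [] + 0 = 0
      unfold qs
      rw [if_neg (c := τ X = Lab.X ∧ x ∈ X) (fun h => hxX h.2)]
      simp) (h0 x hx) hρ1
    rw [← mul_comm] at hINF
    refine le_trans ?_ hINF
    rw [mul_comm]
    refine mul_le_mul_of_nonneg_right ?_ (lamn_nonneg N)
    -- track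
    have hins : insert x X ∪ ((D \ X).erase x) = D := by
      ext y
      simp only [mem_union, mem_insert, mem_erase, mem_sdiff]
      constructor
      · rintro ((rfl | h) | ⟨-, h, -⟩)
        · exact hxD
        · exact hX h
        · exact h
      · intro h
        by_cases hy : y = x
        · exact Or.inl (Or.inl hy)
        · by_cases hyX : y ∈ X
          · exact Or.inl (Or.inr hyX)
          · exact Or.inr ⟨hy, h, hyX⟩
    have htr : ∀ w ∈ seqs ((D \ X).erase x).card ((D \ X).erase x), x ∉ w ∧ w.length = m ∧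
        τ (insert x (X ∪ w.toFinset)) = Lab.B ∧ X ∪ w.toFinset = D.erase x := by
      intro w hw
      obtain ⟨a1, a2, a3⟩ := mem_seqs.1 hw
      have e1 : X ∪ w.toFinset = D.erase x := by
        rw [toFinset_eq_of_mem_seqs hw]
        ext y
        simp only [mem_union, mem_erase, mem_sdiff]
        constructor
        · rintro (h | ⟨h1, h2, -⟩)
          · exact ⟨fun h' => hxX (h' ▸ h), hX h⟩
          · exact ⟨h1, h2⟩
        · rintro ⟨h1, h2⟩
          by_cases hyX : y ∈ X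
          · exact Or.inl hyX
          · exact Or.inr ⟨h1, h2, hyX⟩
      refine ⟨fun h => (mem_erase.1 (a3 x h)).1 rfl, ?_, ?_, e1⟩
      · rw [a2, card_erase_of_mem hx, hm]; rfl
      · rw [e1, insert_erase hxD, hB]
    have hmN : (m : ℝ) ≤ (N : ℝ) - 1 := by
      have : (m : ℝ) + 1 ≤ N := by exact_mod_cast (by omega : m + 1 ≤ N)
      linarith
    have hpm : (m : ℝ) * Eo (D \ X) (eI τ x X) ≤ ((N : ℝ) - 1) * Eo (D \ X) (eI τ x X) :=
      mul_le_mul_of_nonneg_right hmN hp0
    have hm0 : (0 : ℝ) < (m : ℝ) + 1 := by positivity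
    refine le_min (le_trans ?_ hpm) ?_
    · by_cases hl : τ (D.erase x) = Lab.A
      · rw [if_pos hl, ← Eo_sub, Eo_ins hx hm, Eo_ins hx hm (eI τ x X), mul_div_assoc']
        refine div_le_div_of_nonneg_right ?_ hm0.le
        rw [← Eo_mul]
        refine Eo_mono fun w hw => ?_
        obtain ⟨b1, b2, b3, b4⟩ := htr w hw
        have := (track τ X x w b1 hA b3).2.1
        rw [sum_sub_distrib]
        rw [b2] at this ⊢
        exact this
      · rw [if_neg hl, sub_zero, Eo_ins hx hm, Eo_ins hx hm (eI τ x X), mul_div_assoc']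
        refine div_le_div_of_nonneg_right ?_ hm0.le
        rw [← Eo_mul]
        refine Eo_mono fun w hw => ?_
        obtain ⟨b1, b2, b3, b4⟩ := htr w hw
        have := ((track τ X x w b1 hA b3).1 (by rw [b4]; exact hl)).1
        rw [b2] at this ⊢
        exact this
    · by_cases hl : τ (D.erase x) = Lab.A
      · rw [if_pos hl, ← Eo_sub, Eo_ins hx hm, Eo_ins hx hm (qI τ x X)]
        refine div_le_div_of_nonneg_right ?_ hm0.le
        refine Eo_mono fun w hw => ?_
        obtain ⟨b1, b2, b3, b4⟩ := htr w hw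
        have := (track τ X x w b1 hA b3).2.2
        rw [sum_sub_distrib]
        exact this
      · rw [if_neg hl, sub_zero, Eo_ins hx hm, Eo_ins hx hm (qI τ x X)]
        refine div_le_div_of_nonneg_right ?_ hm0.le
        refine Eo_mono fun w hw => ?_
        obtain ⟨b1, b2, b3, b4⟩ := htr w hw
        exact ((track τ X x w b1 hA b3).1 (by rw [b4]; exact hl)).2
  refine le_trans (le_of_eq ?_) (sum_le_sum hsh)
  rw [← mul_sum, sum_sub_distrib, ← Eo_sum, ← sum_filter, sum_const, nsmul_eq_mul]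
  congr 1
  have e1 : Eo (D \ X) (fun π => ∑ x ∈ D \ X, eI τ x X π * ((arun τ X π : ℝ) + 1)) =
      Eo (D \ X) (fun π => leI τ X π * (arun τ X π : ℝ)) + Eo (D \ X) (leI τ X) := by
    rw [← Eo_add]
    refine Eo_congr fun π hπ => ?_
    rw [← sum_mul, sum_eI τ (D \ X) X π (mem_seqs.1 hπ).2.2]
    ring
  rw [e1]
  ring

end R5
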