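import Pool.Agent.Work.MP_8b6acb_ti_helper32.S0b

/-!
# (S0'): the slack of a state
-/

namespace R5

open Finset

variable {α : Type} [DecidableEq α]

theorem csum_ge (D : Finset α) (c : Finset α → ℝ) (c0 : ℝ) (π : List α) : ∀ U : Finset α,
    U ⊆ D → π.Nodup → (∀ x ∈ π, x ∈ D) → (∀ x ∈ π, x ∉ U) →
    (∀ V, U ⊆ V → V ⊆ D → V ≠ D → c0 ≤ c V) →
    (π.length : ℝ) * c0 ≤ csum c U π := by
  induction π with
  | nil => intro U _ _ _ _ _; show ((0 : ℕ) : ℝ) * c0 ≤ 0; simp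
  | cons x π ih =>
    intro U hU hnd hπ hπU h
    rw [List.nodup_cons] at hnd
    have h1 := ih (insert x U) (insert_subset (hπ x (by simp)) hU) hnd.2
      (fun y hy => hπ y (List.mem_cons_of_mem _ hy))
      (fun y hy => by
        rw [mem_insert]
        rintro (rfl | h)
        · exact hnd.1 hy
        · exact hπU y (List.mem_cons_of_mem _ hy) h)
      (fun V hV hVD => h V ((subset_insert _ _).trans hV) hVD)
    have h2 := h U (Subset.refl _) hU (fun h' => hπU x (by simp) (by rw [h']; exact hπ x (by simp)))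
    show _ ≤ c U + csum c (insert x U) π
    rw [List.length_cons]
    push_cast
    linarith

/-- The gain of the marks along a path. -/
noncomputable def gS (τ : Finset α → Lab) (D : Finset α) (mk : Finset α → Finset α) :
    Finset α → List α → ℝ :=
  psum (fun U x π => (if isE τ U x then gd τ (insert x U) π * gm mk D (insert x U) else 0) +
    (if τ U = Lab.X then gd τ (insert x U) π * gm mk D U else 0))

theorem sc_ge {D X U0 V M : Finset α} (hXU : X ⊆ U0) (hUV : U0 ⊆ V) (hVD : V ⊆ D) (hne : V ≠ D)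
    (ρ : α → ℝ) (h0 : ∀ x ∈ D \ X, 0 ≤ ρ x) (h1 : ∀ x ∈ D \ X, ρ x ≤ 1) :
    -Real.log (1 - (∑ g ∈ U0 \ X, ρ g) / ((D \ X).card : ℝ)) ≤
      sc ρ ((D \ X).card : ℝ) X U0 M V := by
  obtain ⟨y, hyD, hyV⟩ := exists_of_ssubset (Finset.ssubset_iff_subset_ne.2 ⟨hVD, hne⟩)
  have hyG : y ∈ D \ X := mem_sdiff.2 ⟨hyD, fun h => hyV (hUV (hXU h))⟩
  have hn0 : (0 : ℝ) < ((D \ X).card : ℝ) := by exact_mod_cast card_pos.2 ⟨y, hyG⟩
  unfold sc
  have hs1 : U0 \ X ⊆ D \ X := sdiff_subset_sdiff (hUV.trans hVD) (Subset.refl _)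
  have hs2 : (V \ U0) \ M ⊆ D \ X := by
    intro x hx
    rw [mem_sdiff, mem_sdiff] at hx
    exact mem_sdiff.2 ⟨hVD hx.1.1, fun h => hx.1.2 (hXU h)⟩
  have hd : Disjoint (U0 \ X) ((V \ U0) \ M) := by
    rw [Finset.disjoint_left]
    intro x h1 h2
    rw [mem_sdiff] at h1
    rw [mem_sdiff, mem_sdiff] at h2
    exact h2.1.2 h1.1
  have p2 : 0 ≤ ∑ g ∈ (V \ U0) \ M, ρ g := sum_nonneg fun x hx => h0 x (hs2 hx)
  have p3 : (∑ g ∈ U0 \ X, ρ g) + ∑ g ∈ (V \ U0) \ M, ρ g < ((D \ X).card : ℝ) := by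
    rw [← sum_union hd]
    refine sum_lt_card (union_subset hs1 hs2) hyG ?_ h1 le_rfl
    rw [mem_union, mem_sdiff, mem_sdiff, mem_sdiff]
    rintro (h | h)
    · exact hyV (hUV h.1)
    · exact hyV h.1.1
  have e1 : 0 < 1 - ((∑ g ∈ U0 \ X, ρ g) + ∑ g ∈ (V \ U0) \ M, ρ g) / ((D \ X).card : ℝ) := by
    rw [sub_pos, div_lt_one hn0]; exact p3
  have := Real.log_le_log e1 (by
    rw [add_div]
    have : 0 ≤ (∑ g ∈ (V \ U0) \ M, ρ g) / ((D \ X).card : ℝ) := by positivity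
    linarith : 1 - ((∑ g ∈ U0 \ X, ρ g) + ∑ g ∈ (V \ U0) \ M, ρ g) / ((D \ X).card : ℝ) ≤
      1 - (∑ g ∈ U0 \ X, ρ g) / ((D \ X).card : ℝ))
  linarith

/-- The value of a state is at least its smallest value plus `log n` for the edges plus the gain
of the marks. -/
theorem SX_ge (τ : Finset α → Lab) (D X : Finset α) (hX : X ⊆ D)
    (ρ : α → ℝ) (h0 : ∀ x ∈ D \ X, 0 ≤ ρ x)
    (h1 : ∀ x ∈ D \ X, ρ x ≤ 1) (mk : Finset α → Finset α) :
    Eo (D \ X) (psum (phiM τ ρ ((D \ X).card : ℝ) X) X) +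
      Eo (D \ X) (leI τ X) * Real.log ((D \ X).card : ℝ) + Eo (D \ X) (gS τ D mk X) ≤
      SX τ D ρ mk X := by
  unfold SX
  rw [← Eo_mul_right, ← Eo_add, ← Eo_add]
  refine Eo_mono fun π hπ => ?_
  obtain ⟨hnd, hlen, hmem⟩ := mem_seqs.1 hπ
  rw [mul_comm]
  unfold leI gS
  rw [← psum_mul, ← psum_add, ← psum_add]
  refine psum_mono_path _ _ π X fun π1 y π2 hd => ?_
  obtain ⟨U, hU⟩ : ∃ U, X ∪ π1.toFinset = U := ⟨_, rfl⟩
  rw [hU]
  have hyG : y ∈ D \ X := hmem y (by rw [hd]; simp)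
  have hlen2 : π1.length + (π2.length + 1) = (D \ X).card := by
    rw [← hlen, hd]; simp
  have hUD : U ⊆ D := by
    rw [← hU]
    refine union_subset hX fun z hz => ?_
    have : z ∈ π := by rw [hd]; exact List.mem_append_left _ (List.mem_toFinset.1 hz)
    exact (mem_sdiff.1 (hmem z this)).1
  have hXU : X ⊆ U := by rw [← hU]; exact subset_union_left
  have hπ2 : ∀ z ∈ π2, z ∈ D := fun z hz =>
    (mem_sdiff.1 (hmem z (by rw [hd]; simp [hz]))).1
  have hg := gd_nonneg τ (insert y U) π2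
  have hyD : insert y U ⊆ D := insert_subset (mem_sdiff.1 hyG).1 hUD
  have hnd2 : y ∉ π1 ∧ y ∉ π2 ∧ π2.Nodup ∧ ∀ z ∈ π2, z ∉ π1 := by
    rw [hd, List.nodup_append] at hnd
    obtain ⟨n1, n2, n3⟩ := hnd
    rw [List.nodup_cons] at n2
    exact ⟨fun h => n3 y h y (by simp) rfl, n2.1, n2.2, fun z hz h => n3 z h z (by simp [hz]) rfl⟩
  have hU2 : ∀ z ∈ D \ X, z ∉ π1 → z ∉ U := by
    intro z hz hz1
    rw [← hU, mem_union, List.mem_toFinset]
    rintro (h | h)
    · exact (mem_sdiff.1 hz).2 h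
    · exact hz1 h
  have hyU : y ∉ U := hU2 y hyG hnd2.1
  have hπU : ∀ z ∈ π2, z ∉ U := fun z hz =>
    hU2 z (hmem z (by rw [hd]; simp [hz])) (hnd2.2.2.2 z hz)
  unfold phiM phiS
  by_cases hE : isE τ U y
  · have hX' : τ U ≠ Lab.X := by rw [hE.1]; decide
    simp only [if_pos hE, if_neg hX', add_zero]
    have h2 : (π2.length : ℝ) * -Real.log (1 - (∑ g ∈ insert y U \ X, ρ g) /
        ((D \ X).card : ℝ)) ≤ csum (sc ρ ((D \ X).card : ℝ) X (insert y U) (mk (insert y U)))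
          (insert y U) π2 := by
      refine csum_ge D _ _ π2 (insert y U) hyD hnd2.2.2.1 hπ2 ?_ fun V hV hVD hne => ?_
      · intro z hz
        rw [mem_insert]
        rintro (rfl | h)
        · exact hnd2.2.1 hz
        · exact hπU z hz h
      · exact sc_ge (hXU.trans (subset_insert _ _)) hV hVD hne ρ h0 h1
    nlinarith [mul_le_mul_of_nonneg_left h2 hg]
  · simp only [if_neg hE, zero_add, mul_zero]
    by_cases hX' : τ U = Lab.X
    · simp only [if_pos hX']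
      have h2 : ((y :: π2).length : ℝ) * -Real.log (1 - (∑ g ∈ U \ X, ρ g) /
          ((D \ X).card : ℝ)) ≤ csum (sc ρ ((D \ X).card : ℝ) X U (mk U)) U (y :: π2) := by
        refine csum_ge D _ _ (y :: π2) U hUD (List.nodup_cons.2 ⟨hnd2.2.1, hnd2.2.2.1⟩) ?_ ?_
          fun V hV hVD hne => ?_
        · intro z hz
          rcases List.mem_cons.1 hz with rfl | h
          · exact (mem_sdiff.1 hyG).1
          · exact hπ2 z h
        · intro z hz
          rcases List.mem_cons.1 hz with rfl | h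
          · exact hyU
          · exact hπU z h
        · exact sc_ge hXU hV hVD hne ρ h0 h1
      rw [List.length_cons] at h2
      push_cast at h2
      nlinarith [mul_le_mul_of_nonneg_left h2 hg]
    · simp only [if_neg hX']
      simp

/-- (S0') for the slack of the state `X`: only lights of the top can make it negative. -/
theorem Ssl_ge (τ : Finset α → Lab) (D X : Finset α) (hX : X ⊆ D) (hA : τ X = Lab.A)
    (hB : τ D = Lab.B) (ρ : α → ℝ) (h0 : ∀ x ∈ D \ X, 0 < ρ x) (h1 : ∀ x ∈ D \ X, ρ x ≤ 1)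
    (mk : Finset α → Finset α) :
    Eo (D \ X) (gS τ D mk X) +
      (1 - (((D \ X).filter (fun x => τ (D.erase x) = Lab.A)).card : ℝ)) *
        (lamn (D \ X).card * Eo (D \ X) (leI τ X)) ≤ Ssl τ D ρ mk X := by
  have e1 := SX_ge τ D X hX ρ (fun x hx => (h0 x hx).le) h1 mk
  have e2 := S0 τ D X hX hA hB ρ h0 h1 (D \ X).card le_rfl
  have e3 : Eo (D \ X) (rq τ X) = Eo (D \ X) (leI τ X) * Real.log ((D \ X).card : ℝ) +
      lamn (D \ X).card * Eo (D \ X) (fun π => leI τ X π * (arun τ X π : ℝ)) := by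
    rw [← Eo_mul_right, ← Eo_mul, ← Eo_add]
    refine Eo_congr fun π hπ => ?_
    unfold rq
    rw [(mem_seqs.1 hπ).2.1]
    ring
  unfold Ssl
  rw [e3]
  nlinarith [e1, e2]

end R5
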