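import Pool.Agent.Work.MP_8b6acb_ti_helper32.Path
import Pool.Agent.Work.MP_8b6acb_cap.YSUM

/-!
# The total of the S side as a sum of slacks of the states (path layer)
-/

namespace R5

open Finset

variable {α : Type} [DecidableEq α]

/-! ## Path functionals -/

/-- Indicator: the last object of the path above `U` is an edge. -/
noncomputable def leI (τ : Finset α → Lab) : Finset α → List α → ℝ :=
  psum (fun U x π => if isE τ U x then gd τ (insert x U) π else 0)

theorem leI_nil (τ : Finset α → Lab) (U : Finset α) : leI τ U [] = 0 := rfl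

theorem leI_cons (τ : Finset α → Lab) (U : Finset α) (x : α) (π : List α) :
    leI τ U (x :: π) = (if isE τ U x then gd τ (insert x U) π else 0) +
      leI τ (insert x U) π := rfl

/-- Number of further sets of the initial `A`-run. -/
def arun (τ : Finset α → Lab) : Finset α → List α → ℕ
  | _, [] => 0
  | U, x :: π => if τ (insert x U) = Lab.A then arun τ (insert x U) π + 1 else 0

theorem arun_cons (τ : Finset α → Lab) (U : Finset α) (x : α) (π : List α) :
    arun τ U (x :: π) = if τ (insert x U) = Lab.A then arun τ (insert x U) π + 1 else 0 := rfl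

/-- Indicator: all sets of the path above `U` (with `U` and the last set) have label `A`. -/
noncomputable def gA (τ : Finset α → Lab) : Finset α → List α → ℝ
  | U, [] => if τ U = Lab.A then 1 else 0
  | U, x :: π => if τ U = Lab.A then gA τ (insert x U) π else 0

/-- Sum over the sets of the initial `A`-run. -/
noncomputable def asum (τ : Finset α → Lab) (F : Finset α → List α → ℝ) :
    Finset α → List α → ℝ
  | U, [] => if τ U = Lab.A then F U [] else 0
  | U, x :: π => if τ U = Lab.A then F U (x :: π) + asum τ F (insert x U) π else 0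

theorem asum_of_ne {τ : Finset α → Lab} (F : Finset α → List α → ℝ) {U : Finset α}
    (h : τ U ≠ Lab.A) (π : List α) : asum τ F U π = 0 := by
  cases π with
  | nil => exact if_neg h
  | cons x π => exact if_neg h

theorem asum_cons (τ : Finset α → Lab) (F : Finset α → List α → ℝ) (U : Finset α) (x : α)
    (π : List α) : asum τ F U (x :: π) =
      if τ U = Lab.A then F U (x :: π) + asum τ F (insert x U) π else 0 := rfl

theorem Eo_rec_top {G : Finset α} (hG : G.Nonempty) (F : List α → ℝ) :
    Eo G F = (∑ x ∈ G, Eo (G.erase x) (fun π => F (π ++ [x]))) / (G.card : ℝ) := by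
  rw [← Eo_reverse, Eo_rec hG]
  congr 1
  refine sum_congr rfl fun x _ => ?_
  rw [← Eo_reverse (G.erase x) (fun π => F (π ++ [x]))]
  exact Eo_congr fun π _ => by rw [List.reverse_cons]

theorem gA_append (τ : Finset α → Lab) (π : List α) (x : α) : ∀ U : Finset α,
    gA τ U (π ++ [x]) = gA τ U π * (if τ (insert x (U ∪ π.toFinset)) = Lab.A then 1 else 0) := by
  induction π with
  | nil =>
    intro U
    show (if τ U = Lab.A then (if τ (insert x U) = Lab.A then (1 : ℝ) else 0) else 0) = _
    simp only [List.toFinset_nil, union_empty]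
    show _ = (if τ U = Lab.A then (1 : ℝ) else 0) * _
    split_ifs <;> simp
  | cons y π ih =>
    intro U
    show (if τ U = Lab.A then gA τ (insert y U) (π ++ [x]) else 0) =
      (if τ U = Lab.A then gA τ (insert y U) π else 0) * _
    by_cases h : τ U = Lab.A
    · rw [if_pos h, if_pos h, ih]
      have : insert y U ∪ π.toFinset = U ∪ (y :: π).toFinset := by
        rw [List.toFinset_cons, insert_union, union_insert]
      rw [this]
    · rw [if_neg h, if_neg h, zero_mul]

/-- `fw` as an average over orders. -/
theorem fw_path (τ : Finset α → Lab) : ∀ (n : ℕ) (V : Finset α), V.card = n →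
    fw τ V = Eo V (gA τ ∅) := by
  intro n
  induction n with
  | zero =>
    intro V hV
    rw [card_eq_zero] at hV
    subst hV
    rw [Eo_empty, fw_empty]
    rfl
  | succ n ih =>
    intro V hV
    have hne : V.Nonempty := card_pos.1 (by omega)
    rw [fw_rec hne.ne_empty, Eo_rec_top hne]
    have h1 : ∀ x ∈ V, Eo (V.erase x) (fun π => gA τ ∅ (π ++ [x])) =
        (if τ V = Lab.A then 1 else 0) * fw τ (V.erase x) := by
      intro x hx
      rw [ih (V.erase x) (by rw [card_erase_of_mem hx, hV]; rfl), ← Eo_mul]
      refine Eo_congr fun π hπ => ?_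
      have : insert x (∅ ∪ π.toFinset) = V := by
        rw [empty_union, toFinset_eq_of_mem_seqs hπ, insert_erase hx]
      rw [gA_append, this]
      ring
    rw [sum_congr rfl h1, ← mul_sum]
    unfold fwb
    split_ifs with h
    · ring
    · ring

theorem asum_eq (τ : Finset α → Lab) (F : Finset α → List α → ℝ) (π : List α) :
    ∀ U : Finset α, asum τ F U π = ∑ i ∈ range (π.length + 1),
      gA τ U (π.take i) * F (U ∪ (π.take i).toFinset) (π.drop i) := by
  induction π with
  | nil =>
    intro U
    show (if τ U = Lab.A then F U [] else 0) = _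
    rw [List.length_nil, sum_range_one]
    show _ = (if τ U = Lab.A then (1 : ℝ) else 0) * _
    simp only [List.take_nil, List.toFinset_nil, union_empty, List.drop_nil]
    split_ifs <;> simp
  | cons x π ih =>
    intro U
    rw [asum_cons, List.length_cons, sum_range_succ']
    simp only [List.take_succ_cons, List.drop_succ_cons, List.take_zero, List.drop_zero,
      List.toFinset_nil, union_empty]
    by_cases h : τ U = Lab.A
    · rw [if_pos h, ih]
      have e1 : gA τ U [] = 1 := if_pos h
      rw [e1, one_mul, add_comm]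
      congr 1
      refine sum_congr rfl fun i _ => ?_
      have e2 : gA τ U (x :: List.take i π) = gA τ (insert x U) (List.take i π) := if_pos h
      have e3 : insert x U ∪ (List.take i π).toFinset = U ∪ (x :: List.take i π).toFinset := by
        rw [List.toFinset_cons, insert_union, union_insert]
      rw [e2, e3]
    · rw [if_neg h]
      have e1 : gA τ U [] = 0 := if_neg h
      rw [e1, zero_mul, add_zero]
      symm
      refine sum_eq_zero fun i _ => ?_
      have e2 : gA τ U (x :: List.take i π) = 0 := if_neg h
      rw [e2, zero_mul]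

/-- TOWER: summing over the states of the S side = averaging over the orders of `D`. -/
theorem tower (τ : Finset α → Lab) (D : Finset α) (F : Finset α → List α → ℝ) :
    ∑ X ∈ D.powerset, fw τ X / (D.card.choose X.card : ℝ) * Eo (D \ X) (F X) =
      Eo D (asum τ F ∅) := by
  have h1 : Eo D (asum τ F ∅) = ∑ i ∈ range (D.card + 1),
      Eo D (fun π => gA τ ∅ (π.take i) * F (π.take i).toFinset (π.drop i)) := by
    rw [← Eo_sum]
    refine Eo_congr fun π hπ => ?_
    rw [asum_eq, (mem_seqs.1 hπ).2.1]
    refine sum_congr rfl fun i _ => ?_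
    rw [empty_union]
  rw [h1, sum_powerset]
  refine sum_congr rfl fun i hi => ?_
  rw [mem_range] at hi
  rw [Eo_append i D _ (by omega), sum_div]
  refine sum_congr rfl fun X hX => ?_
  obtain ⟨hXD, hXc⟩ := mem_powersetCard.1 hX
  rw [hXc, fw_path τ _ X rfl, div_mul_eq_mul_div, ← Eo_mul_right]
  congr 1
  refine Eo_congr fun π₁ h₁ => ?_
  rw [← Eo_mul]
  refine Eo_congr fun π₂ _ => ?_
  have hl : π₁.length = i := by rw [(mem_seqs.1 h₁).2.1, hXc]
  have e1 : (π₁ ++ π₂).take i = π₁ := by rw [← hl]; exact List.take_left
  have e2 : (π₁ ++ π₂).drop i = π₂ := by rw [← hl]; exact List.drop_left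
  rw [e1, e2, toFinset_eq_of_mem_seqs h₁]

theorem PX_tower (τ : Finset α → Lab) (D : Finset α) (F : Finset α → List α → ℝ) :
    ∑ X ∈ D.powerset, PX τ D X * Eo (D \ X) (F X) = Eo D (asum τ F ∅) / ((D.card : ℝ) + 1) := by
  rw [← tower, sum_div]
  refine sum_congr rfl fun X _ => ?_
  unfold PX
  have : ((D.card : ℝ) + 1) ≠ 0 := by positivity
  rw [mul_comm ((D.card : ℝ) + 1), ← div_div]
  ring

/-! ## The mass of the edges -/

/-- The weights `pe` as an average over orders. -/
theorem pe_path (τ : Finset α → Lab) (D : Finset α) (hB : τ D = Lab.B) {X : Finset α}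
    (hX : X ⊆ D) (f : Finset α → α → ℝ) :
    ∑ V ∈ D.powerset, ∑ x ∈ D \ V, pe τ D X V x * f V x = PX τ D X *
      Eo (D \ X) (psum (fun V x π => if isE τ V x then gd τ (insert x V) π * f V x else 0) X) := by
  rw [Eo_psum D _ _ X hX rfl, mul_sum,
    ← sum_filter_add_sum_filter_not D.powerset (fun V => X ⊆ V)]
  have e3 : ∑ V ∈ D.powerset.filter (fun V => ¬ X ⊆ V), ∑ x ∈ D \ V, pe τ D X V x * f V x = 0 := by
    refine sum_eq_zero fun V hV => sum_eq_zero fun x _ => ?_
    have hXV := (mem_filter.1 hV).2
    have z1 : pe τ D X V x = 0 := if_neg (fun h => hXV h.1)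
    rw [z1, zero_mul]
  rw [e3, add_zero]
  refine sum_congr rfl fun V hV => ?_
  rw [mem_filter, mem_powerset] at hV
  obtain ⟨hVD, hXV⟩ := hV
  have hVX : (V \ X).card = V.card - X.card := card_sdiff_of_subset hXV
  have hDX : (D \ X).card = D.card - X.card := card_sdiff_of_subset hX
  have hDV : ((D \ V).card : ℝ) = (D.card : ℝ) - V.card := card_sdiff_cast hVD
  have hx : ∀ x ∈ D \ V, Eo (D \ insert x V)
      (fun π => if isE τ V x then gd τ (insert x V) π * f V x else 0) =
      if isE τ V x then bw τ D (insert x V) * f V x else 0 := by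
    intro x hx
    have hxD : insert x V ⊆ D := insert_subset (mem_sdiff.1 hx).1 hVD
    by_cases h : isE τ V x
    · simp only [if_pos h]
      rw [Eo_mul_right, Eo_gd hxD hB]
    · simp only [if_neg h]
      exact Eo_zero _
  rw [sum_congr rfl hx, hVX, hDX, hDV]
  unfold PX
  rw [sum_div, sum_div, mul_sum]
  refine sum_congr rfl fun x _ => ?_
  unfold pe
  by_cases h : isE τ V x
  · rw [if_pos ⟨hXV, h⟩, if_pos h, div_div, div_mul_div_comm, div_mul_eq_mul_div]
    congr 1
    · ring
    · ring
  · rw [if_neg (fun h' => h h'.2), if_neg h]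
    ring

theorem PEL_path (τ : Finset α → Lab) (D : Finset α) (hB : τ D = Lab.B) :
    PEL τ D = ∑ X ∈ D.powerset, PX τ D X * Eo (D \ X) (leI τ X) := by
  have h1 : PEL τ D = ∑ X ∈ D.powerset, ∑ V ∈ D.powerset, ∑ x ∈ D \ V, pe τ D X V x * 1 := by
    unfold PEL
    rw [sum_comm]
    refine sum_congr rfl fun V hV => ?_
    rw [sum_comm]
    refine sum_congr rfl fun x hx => ?_
    rw [← (stmt_YSUM τ D V (mem_powerset.1 hV)).1 x hx]
    simp only [mul_one]
  rw [h1]
  refine sum_congr rfl fun X hX => ?_
  rw [pe_path τ D hB (mem_powerset.1 hX)]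
  congr 1
  refine Eo_congr fun π _ => ?_
  unfold leI
  simp only [mul_one]

/-! ## Telescoping -/

/-- The requirement of the state `U` along a path. -/
noncomputable def rq (τ : Finset α → Lab) (U : Finset α) (π : List α) : ℝ :=
  leI τ U π * (Real.log (π.length : ℝ) + lamn π.length * (arun τ U π : ℝ))

theorem tele_aux (τ : Finset α → Lab) (π : List α) : ∀ U : Finset α, τ U = Lab.A →
    asum τ (rq τ) U π = leI τ U π * (((arun τ U π : ℝ) + 1) * Real.log (π.length : ℝ)) := by
  induction π with
  | nil =>
    intro U h
    show (if τ U = Lab.A then rq τ U [] else 0) = _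
    rw [if_pos h]
    unfold rq
    rw [leI_nil]
    ring
  | cons x π ih =>
    intro U h
    rw [asum_cons, if_pos h]
    unfold rq
    rw [leI_cons, arun_cons]
    by_cases hx : τ (insert x U) = Lab.A
    · have hE : ¬ isE τ U x := fun h' => by rw [h'.2] at hx; exact absurd hx (by decide)
      rw [if_neg hE, if_pos hx]
      have := ih _ hx
      unfold rq at this
      rw [this]
      cases π with
      | nil => rw [leI_nil]; ring
      | cons y π =>
        have e0 : ((x :: y :: π).length : ℝ) - 1 = ((y :: π).length : ℝ) := by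
          simp only [List.length_cons]
          push_cast
          ring
        have e1 : lamn (x :: y :: π).length = Real.log ((x :: y :: π).length : ℝ) -
            Real.log ((y :: π).length : ℝ) := by
          unfold lamn
          rw [e0, Real.log_div]
          · simp only [List.length_cons]; positivity
          · simp only [List.length_cons]; positivity
        rw [e1]
        push_cast
        ring
    · rw [if_neg hx, asum_of_ne _ hx]
      push_cast
      ring

theorem asum_le (τ : Finset α → Lab) (c : ℝ) (π : List α) : ∀ U : Finset α, τ U = Lab.A →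
    asum τ (fun U π => leI τ U π * c) U π = leI τ U π * (((arun τ U π : ℝ) + 1) * c) := by
  induction π with
  | nil =>
    intro U h
    show (if τ U = Lab.A then leI τ U [] * c else 0) = _
    rw [if_pos h, leI_nil]
    ring
  | cons x π ih =>
    intro U h
    rw [asum_cons, if_pos h, leI_cons, arun_cons]
    by_cases hx : τ (insert x U) = Lab.A
    · have hE : ¬ isE τ U x := fun h' => by rw [h'.2] at hx; exact absurd hx (by decide)
      rw [if_neg hE, if_pos hx, ih _ hx]
      push_cast
      ring
    · rw [if_neg hx, asum_of_ne _ hx]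
      push_cast
      ring

/-- The price `log l` of the edges, distributed over the states. -/
theorem PEL_tele (τ : Finset α → Lab) (D : Finset α) (hA : τ ∅ = Lab.A) (hB : τ D = Lab.B) :
    Real.log (D.card : ℝ) * PEL τ D = ∑ X ∈ D.powerset, PX τ D X * Eo (D \ X) (rq τ X) := by
  rw [PEL_path τ D hB, mul_sum]
  have h1 : ∀ X ∈ D.powerset, Real.log (D.card : ℝ) * (PX τ D X * Eo (D \ X) (leI τ X)) =
      PX τ D X * Eo (D \ X) (fun π => leI τ X π * Real.log (D.card : ℝ)) := by
    intro X _
    rw [Eo_mul_right]
    ring
  rw [sum_congr rfl h1, PX_tower τ D (fun U π => leI τ U π * Real.log (D.card : ℝ)),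
    PX_tower τ D (rq τ)]
  congr 1
  refine Eo_congr fun π hπ => ?_
  rw [asum_le τ _ π ∅ hA, tele_aux τ π ∅ hA, (mem_seqs.1 hπ).2.1]

/-- The slack of the state `X` of the S side. -/
noncomputable def Ssl (τ : Finset α → Lab) (D : Finset α) (ρ : α → ℝ)
    (mk : Finset α → Finset α) (X : Finset α) : ℝ :=
  SX τ D ρ mk X - Eo (D \ X) (rq τ X)

/-- TOTAL of the S side. -/
theorem S_total (τ : Finset α → Lab) (D : Finset α) (hA : τ ∅ = Lab.A) (hB : τ D = Lab.B)
    (ρ : Finset α → α → ℝ) (mk : Finset α → Finset α) :
    SGc τ D ρ mk - Real.log (D.card : ℝ) * PEL τ D =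
      ∑ X ∈ D.powerset, PX τ D X * Ssl τ D (ρ X) mk X := by
  rw [SGc_path τ D hB, PEL_tele τ D hA hB, ← sum_sub_distrib]
  refine sum_congr rfl fun X _ => ?_
  unfold Ssl
  ring

end R5
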